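import Pool.Agent.R384.Z.Fm

/-!
# Parity of Selmer groups: definitions and the statements of the jobs
-/

set_option autoImplicit false

namespace Pool.Agent.H76.PS

open Pool.Agent.Y715.Gi (QB KK GK)
open Pool.Agent.Y715.Nr Pool.Agent.W237.RK
open Pool.Agent.Z384 (II DD DDs Fld)

/-! ## Part A: cohomology with coefficients in `ZMod 2` of a compact group -/

section abs

variable (G : Type) [Group G] [TopologicalSpace G]

/-- the locally constant characters with values in `ZMod 2` -/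
def HS : Submodule (ZMod 2) (G → ZMod 2) where
  carrier := {φ | IsLocallyConstant φ ∧ ∀ x y, φ (x * y) = φ x + φ y}
  add_mem' := by
    rintro φ φ' ⟨h1, h2⟩ ⟨h3, h4⟩
    exact ⟨h1.add h3, fun x y => by simp only [Pi.add_apply, h2, h4]; abel⟩
  zero_mem' := ⟨IsLocallyConstant.const 0, fun x y => by simp⟩
  smul_mem' := by
    rintro a φ ⟨h1, h2⟩
    exact ⟨h1.comp (fun z => a * z), fun x y => by simp only [Pi.smul_apply, h2, smul_add]⟩

/-- the locally constant `2`-cocycles with values in `ZMod 2` -/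
def Z2 : Submodule (ZMod 2) (G → G → ZMod 2) where
  carrier := {e | IsLocallyConstant (fun v : G × G => e v.1 v.2) ∧
    ∀ x y z, e y z + e (x * y) z + e x (y * z) + e x y = 0}
  add_mem' := by
    rintro φ φ' ⟨h1, h2⟩ ⟨h3, h4⟩
    refine ⟨h1.add h3, fun x y z => ?_⟩
    have := congrArg₂ (· + ·) (h2 x y z) (h4 x y z)
    simp only [add_zero] at this
    rw [← this]
    simp only [Pi.add_apply]
    abel
  zero_mem' := ⟨IsLocallyConstant.const 0, fun x y z => by simp⟩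
  smul_mem' := by
    rintro a φ ⟨h1, h2⟩
    refine ⟨h1.comp (fun z => a * z), fun x y z => ?_⟩
    have := congrArg (a * ·) (h2 x y z)
    simp only [mul_zero] at this
    rw [← this]
    simp only [Pi.smul_apply, smul_eq_mul]
    ring

/-- the coboundaries of the locally constant functions -/
def B2 : Submodule (ZMod 2) (G → G → ZMod 2) where
  carrier := {e | ∃ a : G → ZMod 2, IsLocallyConstant a ∧ ∀ x y, e x y = a x + a y + a (x * y)}
  add_mem' := by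
    rintro φ φ' ⟨a, h1, h2⟩ ⟨a', h3, h4⟩
    refine ⟨a + a', h1.add h3, fun x y => ?_⟩
    simp only [Pi.add_apply, h2, h4]
    abel
  zero_mem' := ⟨0, IsLocallyConstant.const 0, fun x y => by simp⟩
  smul_mem' := by
    rintro c φ ⟨a, h1, h2⟩
    refine ⟨c • a, h1.comp (fun z => c * z), fun x y => ?_⟩
    simp only [Pi.smul_apply, h2, smul_eq_mul]
    ring

/-- `dim Hom(U, ZMod 2) = c [G : U] + 2` for all open subgroups `U` -/
def Cnt (c : ℕ) : Prop :=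
  ∀ U : Subgroup G, IsOpen (U : Set G) → Module.finrank (ZMod 2) (HS U) = c * U.index + 2

/-- the indices of the open subgroups are powers of `2` -/
def Pow2 : Prop := ∀ U : Subgroup G, IsOpen (U : Set G) → ∃ k : ℕ, U.index = 2 ^ k

variable {G}

/-- the cup product of two characters -/
def cup (ψ b : G → ZMod 2) : G → G → ZMod 2 := fun x y => ψ x * b y

/-- restriction of a cochain to a subgroup -/
def rs (Q : Subgroup G) (e : G → G → ZMod 2) : Q → Q → ZMod 2 := fun x y => e x y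

open Classical in
/-- the extension `β₀` of a character `b` of `Q`: `β₀ (q) = b (q)`, `β₀ (q t) = b (q)` -/
noncomputable def bt (Q : Subgroup G) (t : G) (b : Q → ZMod 2) (g : G) : ZMod 2 :=
  if h : g ∈ Q then b ⟨g, h⟩ else if h' : g * t⁻¹ ∈ Q then b ⟨g * t⁻¹, h'⟩ else 0

/-- corestriction of a character of a subgroup `Q` of index `2`, `t ∉ Q` -/
noncomputable def cor (Q : Subgroup G) (t : G) (b : Q → ZMod 2) (g : G) : ZMod 2 :=
  bt Q t b g + bt Q t b (t * g)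

open Classical in
/-- the character with kernel `Q` -/
noncomputable def chi (Q : Subgroup G) (g : G) : ZMod 2 := if g ∈ Q then 0 else 1

end abs

/-- Job A1: the kernel of the restriction to a subgroup of index two. -/
def StA1 : Prop :=
  ∀ (G : Type) [Group G] [TopologicalSpace G] [IsTopologicalGroup G] (Q : Subgroup G),
    IsOpen (Q : Set G) → Q.index = 2 → ∀ e ∈ Z2 G, rs Q e ∈ B2 Q →
      ∃ b ∈ HS G, e + cup (chi Q) b ∈ B2 G

/-- Job A2: corestriction, `Q` of index two, `t ∉ Q`. -/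
def StA2 : Prop :=
  ∀ (G : Type) [Group G] [TopologicalSpace G] [IsTopologicalGroup G] (Q : Subgroup G) (t : G),
    IsOpen (Q : Set G) → Q.index = 2 → t ∉ Q →
      (∀ b ∈ HS Q, cor Q t b ∈ HS G) ∧
      (∀ b b' : Q → ZMod 2, cor Q t (b + b') = cor Q t b + cor Q t b') ∧
      (∀ b ∈ HS Q, cor Q t b = 0 ↔ ∃ ψ ∈ HS G, ∀ q : Q, b q = ψ q) ∧
      (∀ y ∈ HS G, cup (chi Q) y ∈ B2 G ↔ ∃ b ∈ HS Q, cor Q t b = y)

/-- Job A3: the transfer lemma. -/
def StA3 : Prop :=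
  ∀ (G : Type) [Group G] [TopologicalSpace G] [IsTopologicalGroup G] (Q : Subgroup G) (t : G),
    IsOpen (Q : Set G) → Q.index = 2 → t ∉ Q → ∀ e ∈ Z2 G, ∀ ψ ∈ HS G, ∀ b ∈ HS Q,
      rs Q e + cup (fun q : Q => ψ q) b ∈ B2 Q → cup ψ (cor Q t b) ∈ B2 G

/-- The result of part A. -/
def StA : Prop :=
  ∀ (G : Type) [Group G] [TopologicalSpace G] [IsTopologicalGroup G] [CompactSpace G] (c : ℕ),
    1 ≤ c → Cnt G c → Pow2 G →
      (∀ e₁ ∈ Z2 G, ∀ e₂ ∈ Z2 G, e₁ ∉ B2 G → e₂ ∉ B2 G → e₁ + e₂ ∈ B2 G) ∧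
      (∀ ψ ∈ HS G, ψ ≠ 0 → ∃ b ∈ HS G, cup ψ b ∉ B2 G)

/-- Job A4: assembly of part A. -/
def StA4 : Prop := StA1 → StA2 → StA3 → StA

/-! ## Part B: coefficients `ℤ_2(χ)` -/

section tw

variable {G : Type} [Group G] [TopologicalSpace G]

/-- continuous `2`-cocycles with values in `ℤ_2(χ)` -/
def Zp (χ : G → ℤ_[2]) : Set (G → G → ℤ_[2]) :=
  {z | Continuous (fun v : G × G => z v.1 v.2) ∧
    ∀ x y w, χ x * z y w - z (x * y) w + z x (y * w) - z x y = 0}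

/-- coboundaries of continuous functions with values in `ℤ_2` -/
def Bp (χ : G → ℤ_[2]) : Set (G → G → ℤ_[2]) :=
  {z | ∃ f : G → ℤ_[2], Continuous f ∧ ∀ x y, z x y = f x + χ x * f y - f (x * y)}

/-- coboundaries of continuous functions with values in `ℚ_2` -/
def Bq (χ : G → ℤ_[2]) : Set (G → G → ℚ_[2]) :=
  {z | ∃ f : G → ℚ_[2], Continuous f ∧ ∀ x y, z x y = f x + χ x * f y - f (x * y)}

/-- reduction modulo two -/
noncomputable def r2 (z : G → G → ℤ_[2]) : G → G → ZMod 2 := fun x y => PadicInt.toZMod (z x y)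

/-- `χ` is a continuous character -/
structure IsChar (χ : G → ℤ_[2]) : Prop where
  cont : Continuous χ
  one : χ 1 = 1
  mul : ∀ x y, χ (x * y) = χ x * χ y

/-- every character with values in `ZMod 2` lifts to a cocycle with values in `ℤ_2(χ)` -/
def Lifts (χ : G → ℤ_[2]) : Prop :=
  ∀ φ ∈ HS G, ∃ κ : G → ℤ_[2], Continuous κ ∧ (∀ x y, κ (x * y) = κ x + χ x * κ y) ∧
    ∀ x, PadicInt.toZMod (κ x) = φ x

/-- a class modulo `4` on which the involution `c` acts trivially -/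
def Cls4 (χ : G → ℤ_[2]) (c : G → G) : Prop :=
  ∃ w : G → G → ZMod (2 ^ 2), IsLocallyConstant (fun v : G × G => w v.1 v.2) ∧
    (∀ x y v, PadicInt.toZModPow 2 (χ x) * w y v - w (x * y) v + w x (y * v) - w x y = 0) ∧
    (fun x y => ZMod.castHom (by norm_num : 2 ∣ 2 ^ 2) (ZMod 2) (w x y)) ∉ B2 G ∧
    ∃ f : G → ZMod (2 ^ 2), IsLocallyConstant f ∧
      ∀ x y, w (c x) (c y) - w x y = f x + PadicInt.toZModPow 2 (χ x) * f y - f (x * y)

end tw

/-- Job B1: divisibility and generation. -/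
def StB1 : Prop :=
  ∀ (G : Type) [Group G] [TopologicalSpace G] [IsTopologicalGroup G] [CompactSpace G]
    (χ : G → ℤ_[2]), IsChar χ →
    (∀ e₁ ∈ Z2 G, ∀ e₂ ∈ Z2 G, e₁ ∉ B2 G → e₂ ∉ B2 G → e₁ + e₂ ∈ B2 G) →
      (∀ z ∈ Zp χ, r2 z ∈ Z2 G) ∧
      (∀ z ∈ Zp χ, r2 z ∈ B2 G → ∃ z' ∈ Zp χ, ∃ f : G → ℤ_[2], Continuous f ∧
        ∀ x y, z x y = 2 * z' x y + (f x + χ x * f y - f (x * y))) ∧
      (∀ z₀ ∈ Zp χ, r2 z₀ ∉ B2 G → ∀ z ∈ Zp χ, ∃ a : ℤ_[2],
        (fun x y => z x y - a * z₀ x y) ∈ Bp χ) ∧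
      (∀ z ∈ Zp χ, z ∈ Bp χ ∨ ∃ (k : ℕ), ∃ z' ∈ Zp χ, r2 z' ∉ B2 G ∧
        (fun x y => z x y - 2 ^ k * z' x y) ∈ Bp χ)

/-- The result of part B. -/
def StB : Prop :=
  ∀ (G : Type) [Group G] [TopologicalSpace G] [IsTopologicalGroup G] [CompactSpace G]
    (χ : G → ℤ_[2]), IsChar χ →
    (∀ e₁ ∈ Z2 G, ∀ e₂ ∈ Z2 G, e₁ ∉ B2 G → e₂ ∉ B2 G → e₁ + e₂ ∈ B2 G) →
    Lifts χ → ∀ c : G → G, Continuous c → (∀ x y, c (x * y) = c x * c y) → (∀ x, c (c x) = x) →
    (∀ x, χ (c x) = χ x) → Cls4 χ c →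
      (∃ z₀ ∈ Zp χ, ∀ z ∈ Zp χ, ∃ a : ℚ_[2],
        (fun x y => ((z x y : ℤ_[2]) : ℚ_[2]) - a * (z₀ x y : ℤ_[2])) ∈ Bq χ) ∧
      (∀ z ∈ Zp χ, (fun x y => ((z (c x) (c y) : ℤ_[2]) : ℚ_[2]) - (z x y : ℤ_[2])) ∈ Bq χ)

/-- Job B2. -/
def StB2 : Prop := StB1 → StB

end Pool.Agent.H76.PS
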