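import Pool.Agent.H76.PS.Defs

/-!
# Parity of Selmer groups: definitions and the statements of the jobs, Galois side
-/

set_option autoImplicit false

namespace Pool.Agent.H76.PS

open Pool.Agent.Y715.Gi (QB KK GK)
open Pool.Agent.Y715.Nr Pool.Agent.W237.RK
open Pool.Agent.Y715.Df (Cmp)
open Pool.Agent.Z384 (II DD DDs Fld)
open Matrix IsLocalRing

/-! ## Part C: the quadratic characters of the `2`-adic fields -/

/-- Job C1: a finite extension of degree `m` of `ℚ_2` has at most `2 ^ (m + 2)` square classes. -/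
def StC1 : Prop :=
  ∀ L : IntermediateField ℚ_[2] (PadicAlgCl 2), FiniteDimensional ℚ_[2] L →
    ∃ R : Finset (PadicAlgCl 2), R.card ≤ 2 ^ (Module.finrank ℚ_[2] L + 2) ∧
      ∀ x ∈ L, x ≠ 0 → ∃ r ∈ R, ∃ y ∈ L, r ∈ L ∧ r ≠ 0 ∧ x = r * y ^ 2

/-- The result of part C. -/
def StC : Prop :=
  ∀ V : Subgroup (Au 2), IsOpen (V : Set (Au 2)) →
    Module.Finite (ZMod 2) (HS V) ∧ Module.finrank (ZMod 2) (HS V) ≤ V.index + 2

/-- Job C2. -/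
def StC2 : Prop := StC1 → StC

/-! ## Part D: the `2`-units of the number fields -/

/-- `x` is a `2`-unit -/
def TwoUnit (x : QB) : Prop := x ≠ 0 ∧ ∃ k : ℕ, IsIntegral ℤ (2 ^ k * x) ∧ IsIntegral ℤ (2 ^ k * x⁻¹)

/-- Job D1: the `2`-units of a totally complex number field of degree `2 m` with two primes above
`2`. -/
def StD1 : Prop :=
  ∀ (N : Type) [Field N] [NumberField N] (m : ℕ), Module.finrank ℚ N = 2 * m →
    NumberField.InfinitePlace.nrRealPlaces N = 0 →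
    ∀ P₁ P₂ : Ideal (NumberField.RingOfIntegers N), P₁.IsPrime → P₂.IsPrime → P₁ ≠ P₂ →
      (2 : NumberField.RingOfIntegers N) ∈ P₁ → (2 : NumberField.RingOfIntegers N) ∈ P₂ →
      ∃ u : Fin (m + 2) → N, (∀ i, u i ≠ 0) ∧
        (∀ i, ∃ k : ℕ, IsIntegral ℤ (2 ^ k * u i) ∧ IsIntegral ℤ (2 ^ k * (u i)⁻¹)) ∧
        ∀ S : Finset (Fin (m + 2)), IsSquare (∏ i ∈ S, u i) → S = ∅

/-- The result of part D. -/
def StD : Prop :=
  ∀ (s : QB) (d : ℕ), s ^ 2 = -(d : QB) → Fld d → ∀ U : Subgroup (GK s), IsOpen (U : Set (GK s)) →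
    ∃ u : Fin (U.index + 2) → QB, (∀ i, ∀ σ ∈ U, σ (u i) = u i) ∧ (∀ i, TwoUnit (u i)) ∧
      ∀ S : Finset (Fin (U.index + 2)),
        (∃ y : QB, (∀ σ ∈ U, σ y = y) ∧ y ^ 2 = ∏ i ∈ S, u i) → S = ∅

/-- Job D2. -/
def StD2 : Prop := StD1 → StD

/-- Job D3: the `2 ^ k`-th roots of the `2`-units are unramified at the odd primes. -/
def StD3 : Prop :=
  ∀ (s : QB) (p : ℕ) [Fact p.Prime] (ι : QB →ₐ[ℚ] PadicAlgCl p), p ≠ 2 →
    ∀ σ ∈ (II ι : Set (GK s)), ∀ (x : QB) (k : ℕ), TwoUnit (x ^ 2 ^ k) →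
      σ (x ^ 2 ^ k) = x ^ 2 ^ k → σ x = x

/-! ## Part E: the Galois group of the maximal `2`-extension unramified outside `2` -/

/-- `N` is the Galois group of `ℚ̄ / M` for a finite Galois extension `M / ℚ(s)` whose degree is a
power of `2` and which is unramified outside `2` -/
structure TE {s : QB} (N : Subgroup (GK s)) : Prop where
  isOpen : IsOpen (N : Set (GK s))
  normal : N.Normal
  index : ∃ a : ℕ, N.index = 2 ^ a
  unramified : ∀ (p : ℕ) [Fact p.Prime] (ι : QB →ₐ[ℚ] PadicAlgCl p), p ≠ 2 →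
    ∀ σ ∈ (II ι : Set (GK s)), σ ∈ N

/-- the intersection of these subgroups -/
noncomputable def Nf (s : QB) : Subgroup (GK s) := sInf {N | TE N}

instance normal_Nf (s : QB) : (Nf s).Normal := by
  constructor
  intro n hn g
  rw [Nf, Subgroup.mem_sInf] at hn ⊢
  intro N hN
  exact hN.normal.conj_mem n (hn N hN) g

/-- the Galois group of the maximal `2`-extension unramified outside `2` -/
abbrev Gs (s : QB) : Type := GK s ⧸ Nf s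

/-- Job E0: elementary facts. -/
def StE0 : Prop :=
  ∀ (s : QB) (d : ℕ), s ^ 2 = -(d : QB) → Fld d →
    CompactSpace (Gs s) ∧ Pow2 (Gs s) ∧
    (∀ U : Subgroup (GK s), IsOpen (U : Set (GK s)) → Nf s ≤ U → ∃ N, TE N ∧ N ≤ U) ∧
    (∀ U : Subgroup (GK s), IsOpen (U : Set (GK s)) → Nf s ≤ U → ∀ φ ∈ HS U,
      (∀ (p : ℕ) [Fact p.Prime] (ι : QB →ₐ[ℚ] PadicAlgCl p), p ≠ 2 →
        ∀ σ : U, (σ : GK s) ∈ (II ι : Set (GK s)) → φ σ = 0) →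
      ∀ σ : U, (σ : GK s) ∈ Nf s → φ σ = 0) ∧
    (∀ (ι₀ : QB →ₐ[ℚ] PadicAlgCl 2) (U : Subgroup (GK s)), IsOpen (U : Set (GK s)) → Nf s ≤ U →
      ∀ g : GK s, ∃ δ ∈ DDs ι₀, δ⁻¹ * g ∈ U)

/-- Job E1: the restriction homomorphism of the local Galois group. -/
def StE1 : Prop :=
  ∀ (s : QB) (d : ℕ), s ^ 2 = -(d : QB) → Fld d → ∀ ι₀ : QB →ₐ[ℚ] PadicAlgCl 2,
    ∃ r : Au 2 →* GK s, Continuous r ∧ (∀ τ, Cmp ι₀ τ (r τ)) ∧ r.range = DDs ι₀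

/-- The result of part E: counting, extension of the characters of the decomposition group, and
Kummer theory. -/
def StE : Prop :=
  ∀ (s : QB) (d : ℕ), s ^ 2 = -(d : QB) → Fld d →
    Cnt (Gs s) 1 ∧
    (∀ (ι₀ : QB →ₐ[ℚ] PadicAlgCl 2) (U : Subgroup (GK s)), IsOpen (U : Set (GK s)) → Nf s ≤ U →
      ∀ φ ∈ HS (U ⊓ DDs ι₀ : Subgroup (GK s)), ∃ φ' ∈ HS U,
        (∀ σ : U, (σ : GK s) ∈ Nf s → φ' σ = 0) ∧
        ∀ (σ : GK s) (h : σ ∈ U) (h' : σ ∈ U ⊓ DDs ι₀), φ' ⟨σ, h⟩ = φ ⟨σ, h'⟩) ∧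
    (∀ φ ∈ HS (Gs s), ∃ b x : QB, b ∈ KK s ∧ TwoUnit b ∧ x ^ 2 = b ∧
      ∀ σ : GK s, φ (QuotientGroup.mk σ) = 0 ↔ σ x = x)

/-- Job E2. -/
def StE2 : Prop := StC → StD → StD3 → StE0 → StE1 → StE

/-! ## Part F: extension of homomorphisms and cocycles of the decomposition group -/

/-- Job F1: homomorphisms to finite `2`-groups (assume `StE`, `StE0`). -/
def StF1 : Prop :=
  ∀ (s : QB) (d : ℕ), s ^ 2 = -(d : QB) → Fld d → ∀ (ι₀ : QB →ₐ[ℚ] PadicAlgCl 2)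
    (P : Type) [Group P] [Finite P], IsPGroup 2 P → ∀ r : DDs (s := s) ι₀ →* P,
      IsLocallyConstant (fun δ => r δ) →
      ∃ R : GK s →* P, IsLocallyConstant (fun σ => R σ) ∧ (∀ σ ∈ Nf s, R σ = 1) ∧
        ∀ δ : DDs (s := s) ι₀, R (δ : GK s) = r δ

/-- a continuous representation, residually unipotent, unramified outside `2` -/
structure Rp {s : QB} {A : Type} [CommRing A] [IsLocalRing A] [TopologicalSpace A] {n : ℕ}
    (ρ : GK s →* GL (Fin n) A) : Prop where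
  cont : ∀ i j, Continuous fun σ => (ρ σ : Matrix (Fin n) (Fin n) A) i j
  unipotent : ∀ σ, ∃ m : ℕ, ∀ i j,
    (((ρ σ : Matrix (Fin n) (Fin n) A) - 1) ^ m) i j ∈ maximalIdeal A
  unramified : ∀ (p : ℕ) [Fact p.Prime] (ι : QB →ₐ[ℚ] PadicAlgCl p), p ≠ 2 →
    ∀ σ ∈ (II ι : Set (GK s)), ρ σ = 1

/-- Job F2: cocycles (assume `StF1`). -/
def StF2 : Prop :=
  ∀ (s : QB) (d : ℕ), s ^ 2 = -(d : QB) → Fld d → ∀ (ι₀ : QB →ₐ[ℚ] PadicAlgCl 2)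
    (A : Type) [CommRing A] [IsLocalRing A] [IsNoetherianRing A] [TopologicalSpace A]
    [IsTopologicalRing A], IsAdic (maximalIdeal A) → IsAdicComplete (maximalIdeal A) A →
    Finite (ResidueField A) → (2 : A) ∈ maximalIdeal A →
    ∀ (n : ℕ) (ρ : GK s →* GL (Fin n) A), Rp ρ → ∀ l : DDs (s := s) ι₀ → Fin n → A,
      Continuous l → (∀ δ δ', l (δ * δ') = l δ +
        (ρ (δ : GK s) : Matrix (Fin n) (Fin n) A) *ᵥ l δ') →
      ∃ x : GK s → Fin n → A, Continuous x ∧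
        (∀ σ τ, x (σ * τ) = x σ + (ρ σ : Matrix (Fin n) (Fin n) A) *ᵥ x τ) ∧
        (∀ (p : ℕ) [Fact p.Prime] (ι : QB →ₐ[ℚ] PadicAlgCl p), p ≠ 2 →
          ∀ σ ∈ (II ι : Set (GK s)), x σ = 0) ∧
        ∀ δ : DDs (s := s) ι₀, x (δ : GK s) = l δ

/-! ## Part G: the cyclotomic character and the Kummer cocycles -/

/-- `χ` is the `2`-adic cyclotomic character -/
def IsCyc {s : QB} (χ : GK s → ℤ_[2]) : Prop :=
  ∀ (σ : GK s) (m : ℕ) (ζ : QB), ζ ^ 2 ^ m = 1 → σ ζ = ζ ^ (PadicInt.toZModPow m (χ σ)).val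

/-- Job G1. -/
def StG1 : Prop :=
  ∀ (s : QB) (χ : GK s → ℤ_[2]), IsCyc χ → IsChar χ ∧ ∀ σ, ∀ τ ∈ Nf s, χ (σ * τ) = χ σ

/-- Job G2 (assume `StE`, `StE0`, `StD3`, `StG1`): the characters lift to Kummer cocycles. -/
def StG2 : Prop :=
  ∀ (s : QB) (d : ℕ), s ^ 2 = -(d : QB) → Fld d → ∀ χ : GK s → ℤ_[2], IsCyc χ →
    ∀ χ' : Gs s → ℤ_[2], (∀ σ : GK s, χ' (QuotientGroup.mk σ) = χ σ) → Lifts χ'

/-! ## Part H: the class modulo `4` -/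

/-- `c` is a complex conjugation -/
def IsConj (c : QB ≃ₐ[ℚ] QB) : Prop := ∃ j : QB →+* ℂ, ∀ x, j (c x) = (starRingEnd ℂ) (j x)

/-- Job H (assume `StE`, `StE0`, `StD3`, `StG1` and the second part of `StA`). -/
def StH : Prop :=
  ∀ (s : QB) (d : ℕ), s ^ 2 = -(d : QB) → Fld d → ∀ χ : GK s → ℤ_[2], IsCyc χ →
    ∀ χ' : Gs s → ℤ_[2], (∀ σ : GK s, χ' (QuotientGroup.mk σ) = χ σ) →
    ∀ c : QB ≃ₐ[ℚ] QB, IsConj c → ∀ cj : GK s → GK s, (∀ σ x, cj σ x = c (σ (c x))) →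
    ∀ c' : Gs s → Gs s, (∀ σ : GK s, c' (QuotientGroup.mk σ) = QuotientGroup.mk (cj σ)) →
    (∀ ψ ∈ HS (Gs s), ψ ≠ 0 → ∃ b ∈ HS (Gs s), cup ψ b ∉ B2 (Gs s)) →
    Cls4 χ' c'

end Pool.Agent.H76.PS
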