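import Pool.Agent.H76.PS.I4

/-!
# Three further jobs
-/

set_option autoImplicit false

namespace Pool.Agent.H76.PS

open Pool.Agent.Y715.Gi (QB KK GK)
open Pool.Agent.Z384
open Matrix IsLocalRing

/-- Job LG (assume `StE`, `StE0`, `StE1`, `StG1`): a two-cocycle which is trivial on the decomposition
group is trivial. -/
def StLG : Prop :=
  ∀ (s : QB) (d : ℕ), s ^ 2 = -(d : QB) → Fld d → ∀ (ι₀ : QB →ₐ[ℚ] PadicAlgCl 2)
    (A : Type) [CommRing A] [IsDomain A] [TopologicalSpace A] [IsTopologicalRing A]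
    [Algebra ℤ_[2] A] (r : ℕ) (b : Module.Basis (Fin r) ℤ_[2] A),
    (∀ e, Continuous fun a : A => b.repr a e) → Continuous (fun t : ℤ_[2] => algebraMap ℤ_[2] A t) →
    ∀ χ : GK s → ℤ_[2], IsCyc χ → ∀ z : GK s → GK s → A, ZA χ z → z 1 1 = 0 →
      (∃ f : DDs (s := s) ι₀ → A, Continuous f ∧ ∀ δ δ' : DDs (s := s) ι₀,
        z δ δ' = f δ + χ δ • f δ' - f (δ * δ')) →
      z ∈ BA A χ

/-- Job TOP: the topology of the coefficient ring. -/
def StTop : Prop :=
  ∀ (A : Type) [CommRing A] [IsDomain A] [IsLocalRing A] [TopologicalSpace A] [IsTopologicalRing A]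
    [Algebra ℤ_[2] A], IsAdic (maximalIdeal A) → ∀ (r : ℕ) (b : Module.Basis (Fin r) ℤ_[2] A),
      (2 : A) ∈ maximalIdeal A ∧ (2 : A) ≠ 0 ∧ Finite (ResidueField A) ∧
      IsAdicComplete (maximalIdeal A) A ∧ IsNoetherianRing A ∧
      (∀ e, Continuous fun a : A => b.repr a e) ∧ Continuous (fun t : ℤ_[2] => algebraMap ℤ_[2] A t)

/-- Job EV: the rank of a skew-symmetric matrix is even. -/
def StEv : Prop :=
  ∀ (F : Type) [Field F], (2 : F) ≠ 0 → ∀ (k : ℕ) (C : Matrix (Fin k) (Fin k) F), Cᵀ = -C →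
    Even (k - Module.finrank F (LinearMap.ker C.mulVecLin))

end Pool.Agent.H76.PS
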