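import Pool.Agent.H76.PS.Defs2

/-!
# Representations factor through the Galois group of the maximal `2`-extension unramified outside `2`
-/

set_option autoImplicit false
set_option linter.unusedSectionVars false

namespace Pool.Agent.H76.PS

open Pool.Agent.Y715.Gi (QB KK GK)
open Pool.Agent.Y715.Nr Pool.Agent.W237.RK
open Pool.Agent.Y715.Df (Cmp)
open Pool.Agent.Z384
open Matrix IsLocalRing

section ext

/-- the extension given by a cocycle -/
noncomputable def ext' {G : Type} [Group G] {A : Type} [CommRing A] {n : ℕ} (ρ : G →* GL (Fin n) A)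
    (b : G → Fin n → A)
    (hb : ∀ σ τ, b (σ * τ) = b σ + ((ρ σ : Matrix (Fin n) (Fin n) A) *ᵥ b τ)) :
    G →* Matrix (Fin n ⊕ Fin 1) (Fin n ⊕ Fin 1) A where
  toFun σ := Matrix.fromBlocks (ρ σ : Matrix (Fin n) (Fin n) A) (Matrix.of fun i _ => b σ i) 0 1
  map_one' := by
    have h1 : b 1 = 0 := by
      have := hb 1 1
      rw [mul_one, map_one, Units.val_one, Matrix.one_mulVec] at this
      simpa using this
    rw [h1, map_one, Units.val_one, ← Matrix.fromBlocks_one]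
    congr 1
  map_mul' σ τ := by
    rw [Matrix.fromBlocks_multiply, map_mul, Units.val_mul, hb]
    congr 1
    · simp
    · ext i j
      simp [Matrix.mul_apply, Matrix.mulVec, dotProduct, add_comm]
    · simp
    · simp

/-- the extension as a representation on `A ^ (n + 1)` -/
noncomputable def ext {G : Type} [Group G] {A : Type} [CommRing A] {n : ℕ} (ρ : G →* GL (Fin n) A)
    (b : G → Fin n → A)
    (hb : ∀ σ τ, b (σ * τ) = b σ + ((ρ σ : Matrix (Fin n) (Fin n) A) *ᵥ b τ)) :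
    G →* GL (Fin (n + 1)) A :=
  MonoidHom.toHomUnits
    ((Matrix.reindexAlgEquiv A A (finSumFinEquiv (m := n) (n := 1))).toMulEquiv.toMonoidHom.comp
      (ext' ρ b hb))

lemma ext_val {G : Type} [Group G] {A : Type} [CommRing A] {n : ℕ} (ρ : G →* GL (Fin n) A)
    (b : G → Fin n → A)
    (hb : ∀ σ τ, b (σ * τ) = b σ + ((ρ σ : Matrix (Fin n) (Fin n) A) *ᵥ b τ)) (σ : G) :
    (ext ρ b hb σ : Matrix (Fin (n + 1)) (Fin (n + 1)) A) =
      Matrix.reindexAlgEquiv A A (finSumFinEquiv (m := n) (n := 1)) (ext' ρ b hb σ) := rfl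

lemma ext_sub {G : Type} [Group G] {A : Type} [CommRing A] {n : ℕ} (ρ : G →* GL (Fin n) A)
    (b : G → Fin n → A)
    (hb : ∀ σ τ, b (σ * τ) = b σ + ((ρ σ : Matrix (Fin n) (Fin n) A) *ᵥ b τ)) (σ : G) :
    ext' ρ b hb σ - 1 = Matrix.fromBlocks ((ρ σ : Matrix (Fin n) (Fin n) A) - 1)
      (Matrix.of fun i _ => b σ i) 0 0 := by
  ext x y
  rw [Matrix.sub_apply]
  show Matrix.fromBlocks (ρ σ : Matrix (Fin n) (Fin n) A) (Matrix.of fun i _ => b σ i) 0 1 x y -
    (1 : Matrix (Fin n ⊕ Fin 1) (Fin n ⊕ Fin 1) A) x y = _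
  rw [← Matrix.fromBlocks_one]
  rcases x with i | i <;> rcases y with j | j <;> simp [Matrix.one_apply]

lemma block_pow {A : Type} [CommRing A] {n : ℕ} (R : Matrix (Fin n) (Fin n) A)
    (B : Matrix (Fin n) (Fin 1) A) (k : ℕ) :
    (Matrix.fromBlocks R B 0 0 : Matrix (Fin n ⊕ Fin 1) (Fin n ⊕ Fin 1) A) ^ (k + 1) =
      Matrix.fromBlocks (R ^ (k + 1)) (R ^ k * B) 0 0 := by
  induction k with
  | zero => simp
  | succ k ih =>
    rw [pow_succ', ih, Matrix.fromBlocks_multiply]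
    congr 1
    · rw [pow_succ' R (k + 1)]
      simp
    · rw [pow_succ' R k, Matrix.mul_assoc]
      simp
    · simp
    · simp

/-- the ideal membership of the entries of the extension -/
lemma ext_mem {G : Type} [Group G] {A : Type} [CommRing A] {n : ℕ} (ρ : G →* GL (Fin n) A)
    (b : G → Fin n → A)
    (hb : ∀ σ τ, b (σ * τ) = b σ + ((ρ σ : Matrix (Fin n) (Fin n) A) *ᵥ b τ)) (σ : G) {I : Ideal A}
    (h : InI I ((ext ρ b hb σ : Matrix (Fin (n + 1)) (Fin (n + 1)) A) - 1)) :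
    InI I ((ρ σ : Matrix (Fin n) (Fin n) A) - 1) ∧ ∀ i, b σ i ∈ I := by
  set e := finSumFinEquiv (m := n) (n := 1)
  have key : ∀ x y, (ext' ρ b hb σ - 1) x y ∈ I := by
    intro x y
    have h1 := h (e x) (e y)
    rw [ext_val, ← map_one (Matrix.reindexAlgEquiv A A e), ← map_sub] at h1
    have e1 : (Matrix.reindexAlgEquiv A A e (ext' ρ b hb σ - 1)) (e x) (e y) =
        (ext' ρ b hb σ - 1) x y := by
      simp [Matrix.coe_reindexAlgEquiv, Matrix.reindex_apply, Matrix.submatrix_apply]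
    rwa [e1] at h1
  rw [ext_sub] at key
  exact ⟨fun i j => key (Sum.inl i) (Sum.inl j), fun i => key (Sum.inl i) (Sum.inr 0)⟩

lemma ext_unip {G : Type} [Group G] {A : Type} [CommRing A] {n : ℕ} (ρ : G →* GL (Fin n) A)
    (b : G → Fin n → A)
    (hb : ∀ σ τ, b (σ * τ) = b σ + ((ρ σ : Matrix (Fin n) (Fin n) A) *ᵥ b τ)) (σ : G) {I : Ideal A}
    {m : ℕ} (h : InI I (((ρ σ : Matrix (Fin n) (Fin n) A) - 1) ^ m)) :
    InI I (((ext ρ b hb σ : Matrix (Fin (n + 1)) (Fin (n + 1)) A) - 1) ^ (m + 1)) := by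
  set e := finSumFinEquiv (m := n) (n := 1)
  have key : ∀ x y, ((ext' ρ b hb σ - 1) ^ (m + 1)) x y ∈ I := by
    intro x y
    rw [ext_sub, block_pow]
    have h2 : ∀ (k : ℕ) (B : Matrix (Fin n) (Fin k) A) i j,
        (((ρ σ : Matrix (Fin n) (Fin n) A) - 1) ^ m * B : Matrix (Fin n) (Fin k) A) i j ∈ I := by
      intro k B i j
      rw [Matrix.mul_apply]
      exact Ideal.sum_mem _ fun l _ => Ideal.mul_mem_right _ _ (h i l)
    rcases x with i | i <;> rcases y with j | j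
    · show (((ρ σ : Matrix (Fin n) (Fin n) A) - 1) ^ (m + 1)) i j ∈ I
      rw [pow_succ]
      exact h2 n _ i j
    · exact h2 1 _ i j
    · exact zero_mem _
    · exact zero_mem _
  intro i j
  rw [ext_val, ← map_one (Matrix.reindexAlgEquiv A A e), ← map_sub, ← map_pow]
  have e1 : (Matrix.reindexAlgEquiv A A e ((ext' ρ b hb σ - 1) ^ (m + 1))) i j =
      ((ext' ρ b hb σ - 1) ^ (m + 1)) (e.symm i) (e.symm j) := rfl
  rw [e1]
  exact key _ _

lemma ext_cont {G : Type} [Group G] [TopologicalSpace G] {A : Type} [CommRing A]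
    [TopologicalSpace A] {n : ℕ} (ρ : G →* GL (Fin n) A)
    (b : G → Fin n → A)
    (hb : ∀ σ τ, b (σ * τ) = b σ + ((ρ σ : Matrix (Fin n) (Fin n) A) *ᵥ b τ))
    (hρ : ∀ i j, Continuous fun σ => (ρ σ : Matrix (Fin n) (Fin n) A) i j) (hbc : Continuous b)
    (i j : Fin (n + 1)) :
    Continuous fun σ => (ext ρ b hb σ : Matrix (Fin (n + 1)) (Fin (n + 1)) A) i j := by
  set e := finSumFinEquiv (m := n) (n := 1)
  have key : ∀ x y, Continuous fun σ => (ext' ρ b hb σ) x y := by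
    intro x y
    rcases x with i | i <;> rcases y with j | j
    · exact hρ i j
    · exact (continuous_apply i).comp hbc
    · exact continuous_const
    · exact continuous_const
  exact key (e.symm i) (e.symm j)

lemma ext_one {G : Type} [Group G] {A : Type} [CommRing A] {n : ℕ} (ρ : G →* GL (Fin n) A)
    (b : G → Fin n → A)
    (hb : ∀ σ τ, b (σ * τ) = b σ + ((ρ σ : Matrix (Fin n) (Fin n) A) *ᵥ b τ)) {σ : G}
    (h1 : ρ σ = 1) (h2 : b σ = 0) : ext ρ b hb σ = 1 := by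
  apply Units.ext
  have h3 : ext' ρ b hb σ = 1 := by
    rw [← sub_eq_zero, ext_sub, h1, h2]
    rw [Units.val_one, sub_self]
    have : (Matrix.of fun (i : Fin n) (_ : Fin 1) => (0 : Fin n → A) i) = 0 := by
      ext i j
      rfl
    rw [this, Matrix.fromBlocks_zero]
  rw [ext_val, h3, map_one, Units.val_one]

end ext

variable {s : QB} {A : Type} [CommRing A] [IsLocalRing A] [IsNoetherianRing A] [TopologicalSpace A]
  {n : ℕ}

/-- the congruence subgroups -/
theorem te_cong (hA : IsAdic (maximalIdeal A)) (hfin : Finite (ResidueField A))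
    (h2 : (2 : A) ∈ maximalIdeal A) {ρ : GK s →* GL (Fin n) A} (hρ : Rp ρ) (m : ℕ) :
    TE (cong ρ m) where
  isOpen := cong_open hA hρ.cont m
  normal := cong_normal ρ m
  index := cong_index h2 hfin ρ hρ.unipotent m
  unramified p _ ι hp σ hσ := by
    show GeneralLinearGroup.map (n := Fin n) (Ideal.Quotient.mk (maximalIdeal A ^ m)) (ρ σ) = 1
    rw [hρ.unramified p ι hp σ hσ, map_one]

/-- a representation factors through the quotient -/
theorem rp_Nf (hA : IsAdic (maximalIdeal A)) (hfin : Finite (ResidueField A))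
    (h2 : (2 : A) ∈ maximalIdeal A) {ρ : GK s →* GL (Fin n) A} (hρ : Rp ρ) {σ : GK s}
    (hσ : σ ∈ Nf s) : ρ σ = 1 := by
  have h1 : ∀ m, σ ∈ cong ρ m := fun m => by
    rw [Nf, Subgroup.mem_sInf] at hσ
    exact hσ _ (te_cong hA hfin h2 hρ m)
  apply Units.ext
  ext i j
  have h3 : ∀ m, ((ρ σ : Matrix (Fin n) (Fin n) A) - 1) i j ∈ maximalIdeal A ^ m := fun m =>
    mem_cong.1 (h1 m) i j
  have h4 : ((ρ σ : Matrix (Fin n) (Fin n) A) - 1) i j ∈ (⨅ m, maximalIdeal A ^ m : Ideal A) :=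
    (Submodule.mem_iInf _).2 h3
  rw [Ideal.iInf_pow_eq_bot_of_isLocalRing _ (Ideal.IsPrime.ne_top'), Submodule.mem_bot] at h4
  rw [Matrix.sub_apply, sub_eq_zero] at h4
  rw [h4, Units.val_one]

/-- the extension is a representation of the class -/
theorem rp_ext {ρ : GK s →* GL (Fin n) A} (hρ : Rp ρ)
    {x : GK s → Fin n → A} (hx : Continuous x)
    (hc : ∀ σ τ, x (σ * τ) = x σ + (ρ σ : Matrix (Fin n) (Fin n) A) *ᵥ x τ)
    (hu : ∀ (p : ℕ) [Fact p.Prime] (ι : QB →ₐ[ℚ] PadicAlgCl p), p ≠ 2 →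
      ∀ σ ∈ (II ι : Set (GK s)), x σ = 0) : Rp (ext ρ x hc) where
  cont := ext_cont ρ x hc hρ.cont hx
  unipotent σ := by
    obtain ⟨m, hm⟩ := hρ.unipotent σ
    exact ⟨m + 1, ext_unip ρ x hc σ hm⟩
  unramified p _ ι hp σ hσ := ext_one ρ x hc (hρ.unramified p ι hp σ hσ) (hu p ι hp σ hσ)

theorem coc_Nf (hA : IsAdic (maximalIdeal A)) (hfin : Finite (ResidueField A))
    (h2 : (2 : A) ∈ maximalIdeal A) {ρ : GK s →* GL (Fin n) A} (hρ : Rp ρ)
    {x : GK s → Fin n → A} (hx : Continuous x)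
    (hc : ∀ σ τ, x (σ * τ) = x σ + (ρ σ : Matrix (Fin n) (Fin n) A) *ᵥ x τ)
    (hu : ∀ (p : ℕ) [Fact p.Prime] (ι : QB →ₐ[ℚ] PadicAlgCl p), p ≠ 2 →
      ∀ σ ∈ (II ι : Set (GK s)), x σ = 0) {σ : GK s} (hσ : σ ∈ Nf s) : x σ = 0 := by
  have h1 := rp_Nf hA hfin h2 (rp_ext hρ hx hc hu) hσ
  have h3 : InI (⊥ : Ideal A) ((ext ρ x hc σ : Matrix (Fin (n + 1)) (Fin (n + 1)) A) - 1) := by
    intro i j
    rw [h1, Units.val_one, sub_self]
    exact zero_mem _
  exact funext fun i => (Submodule.mem_bot A).1 ((ext_mem ρ x hc σ h3).2 i)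

end Pool.Agent.H76.PS
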