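import Pool.Agent.H76.PS.I1

/-!
# Conjugation
-/

set_option autoImplicit false
set_option linter.unusedSectionVars false

namespace Pool.Agent.H76.PS

open Pool.Agent.Y715.Gi (QB KK GK)
open Pool.Agent.Y715.Nr Pool.Agent.W237.RK
open Pool.Agent.Y715.Df (Cmp)
open Pool.Agent.Z384
open Matrix IsLocalRing

variable {s : QB}

lemma isOpen_fix (x : QB) : IsOpen {σ : GK s | σ x = x} := by
  have h1 := stabilizer_isOpen_of_isIntegral (K := KK s) (L := QB) x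
  exact h1

variable {c : QB ≃ₐ[ℚ] QB} {cj : GK s → GK s}

lemma IsConj.invol (hc : IsConj c) (x : QB) : c (c x) = x := by
  obtain ⟨j, hj⟩ := hc
  apply j.injective
  rw [hj, hj, starRingEnd_self_apply]

lemma cj_mul (hc : IsConj c) (hcj : ∀ σ x, cj σ x = c (σ (c x))) (σ τ : GK s) :
    cj (σ * τ) = cj σ * cj τ := by
  ext x
  rw [hcj, AlgEquiv.mul_apply, AlgEquiv.mul_apply, hcj, hcj, hc.invol]

lemma cj_cj (hc : IsConj c) (hcj : ∀ σ x, cj σ x = c (σ (c x))) (σ : GK s) : cj (cj σ) = σ := by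
  ext x
  rw [hcj, hcj, hc.invol, hc.invol]

/-- the conjugation as a homomorphism -/
noncomputable def cjh (hc : IsConj c) (hcj : ∀ σ x, cj σ x = c (σ (c x))) : GK s →* GK s :=
  MonoidHom.mk' cj (cj_mul hc hcj)

lemma cj_cont (hc : IsConj c) (hcj : ∀ σ x, cj σ x = c (σ (c x))) : Continuous cj := by
  refine continuous_of_continuousAt_one (cjh hc hcj) ?_
  rw [ContinuousAt, map_one]
  intro W hW
  obtain ⟨E, hE, hEW⟩ := (krullTopology_mem_nhds_one_iff (KK s) QB W).1 hW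
  let b := Module.finBasis (KK s) E
  have h1 : IsOpen (⋂ i, {σ : GK s | σ (c (b i : QB)) = c (b i : QB)}) :=
    isOpen_iInter_of_finite fun i => isOpen_fix _
  rw [Filter.mem_map]
  refine Filter.mem_of_superset (h1.mem_nhds ?_) ?_
  · simp
  · intro σ hσ
    rw [Set.mem_iInter] at hσ
    refine hEW ?_
    show cj σ ∈ E.fixingSubgroup
    rw [IntermediateField.mem_fixingSubgroup_iff]
    intro x hx
    have h2 := b.sum_repr ⟨x, hx⟩
    have h3 : x = ∑ i, (b.repr ⟨x, hx⟩ i : KK s) • (b i : QB) := by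
      have := congrArg (E.val) h2
      simp only [map_sum] at this
      exact this.symm
    rw [h3, map_sum]
    refine Finset.sum_congr rfl fun i _ => ?_
    rw [Algebra.smul_def, map_mul, AlgEquiv.commutes, hcj]
    have h4 : σ (c (b i : QB)) = c (b i : QB) := hσ i
    rw [h4, hc.invol]

lemma II_cj (hc : IsConj c) (hcj : ∀ σ x, cj σ x = c (σ (c x))) {p : ℕ} [Fact p.Prime]
    {ι : QB →ₐ[ℚ] PadicAlgCl p} {σ : GK s} (hσ : σ ∈ (II ι : Set (GK s))) :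
    cj σ ∈ (II (ι.comp (c : QB →ₐ[ℚ] QB)) : Set (GK s)) := by
  obtain ⟨τ, hτ, hin⟩ := hσ
  refine ⟨τ, fun z => ?_, hin⟩
  show τ (ι (c z)) = ι (c (cj σ z))
  rw [hcj, hc.invol, hτ]

lemma te_cj (hc : IsConj c) (hcj : ∀ σ x, cj σ x = c (σ (c x))) {N : Subgroup (GK s)} (hN : TE N) :
    TE (N.comap (cjh hc hcj)) where
  isOpen := hN.isOpen.preimage (cj_cont hc hcj)
  normal := hN.normal.comap _
  index := by
    rw [Subgroup.index_comap_of_surjective]
    · exact hN.index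
    · exact fun σ => ⟨cj σ, cj_cj hc hcj σ⟩
  unramified p _ ι hp σ hσ := hN.unramified p _ hp _ (II_cj hc hcj hσ)

lemma cj_Nf (hc : IsConj c) (hcj : ∀ σ x, cj σ x = c (σ (c x))) {σ : GK s} (hσ : σ ∈ Nf s) :
    cj σ ∈ Nf s := by
  rw [Nf, Subgroup.mem_sInf] at hσ ⊢
  intro N hN
  exact hσ _ (te_cj hc hcj hN)

/-- the conjugation on the quotient -/
noncomputable def cq (hc : IsConj c) (hcj : ∀ σ x, cj σ x = c (σ (c x))) : Gs s →* Gs s :=
  QuotientGroup.map (Nf s) (Nf s) (cjh hc hcj) fun _ h => cj_Nf hc hcj h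

lemma cq_mk (hc : IsConj c) (hcj : ∀ σ x, cj σ x = c (σ (c x))) (σ : GK s) :
    cq hc hcj (QuotientGroup.mk σ) = QuotientGroup.mk (cj σ) := rfl

lemma cq_cont (hc : IsConj c) (hcj : ∀ σ x, cj σ x = c (σ (c x))) : Continuous (cq hc hcj) := by
  refine QuotientGroup.isOpenQuotientMap_mk.isQuotientMap.continuous_iff.2 ?_
  exact QuotientGroup.continuous_mk.comp (cj_cont hc hcj)

lemma cq_cq (hc : IsConj c) (hcj : ∀ σ x, cj σ x = c (σ (c x))) (x : Gs s) :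
    cq hc hcj (cq hc hcj x) = x := by
  obtain ⟨σ, rfl⟩ := QuotientGroup.mk_surjective x
  rw [cq_mk, cq_mk, cj_cj hc hcj]

lemma conj_root (hc : IsConj c) {m : ℕ} {ζ : QB} (hζ : ζ ^ 2 ^ m = 1) : c ζ = ζ⁻¹ := by
  obtain ⟨j, hj⟩ := hc
  apply j.injective
  rw [hj, map_inv₀]
  have h1 : (j ζ) ^ 2 ^ m = 1 := by rw [← map_pow, hζ, map_one]
  have h2 : ‖j ζ‖ = 1 := Complex.norm_eq_one_of_pow_eq_one h1 (by positivity)
  exact (Complex.inv_eq_conj h2).symm

lemma cyc_unique {χ χ' : GK s → ℤ_[2]} (h : IsCyc χ) (h' : IsCyc χ') : χ = χ' := by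
  funext σ
  refine PadicInt.ext_of_toZModPow.1 fun m => ?_
  obtain ⟨ζ, hζ⟩ := HasEnoughRootsOfUnity.exists_primitiveRoot QB (2 ^ m)
  have h1 := h σ m ζ hζ.pow_eq_one
  have h2 := h' σ m ζ hζ.pow_eq_one
  rw [h1] at h2
  have h3 := hζ.pow_inj (ZMod.val_lt _) (ZMod.val_lt _) h2
  exact ZMod.val_injective _ h3

lemma cyc_cj (hc : IsConj c) (hcj : ∀ σ x, cj σ x = c (σ (c x))) {χ : GK s → ℤ_[2]} (hχ : IsCyc χ)
    (σ : GK s) : χ (cj σ) = χ σ := by
  refine congrFun (cyc_unique (χ := fun σ => χ (cj σ)) (fun σ m ζ hζ => ?_) hχ) σ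
  have h1 := hχ (cj σ) m ζ hζ
  have h2 : (ζ⁻¹) ^ 2 ^ m = 1 := by rw [inv_pow, hζ, inv_one]
  have h3 : cj (cj σ) ζ = σ ζ := by rw [cj_cj hc hcj]
  rw [← h3, hcj, conj_root hc hζ]
  rw [hχ (cj σ) m _ h2, map_pow, conj_root hc h2, inv_inv]

end Pool.Agent.H76.PS
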