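import Pool.Agent.H76.PS.I2

/-!
# The classes of the two-cocycles with values in `A(1)`
-/

set_option autoImplicit false
set_option linter.unusedSectionVars false

namespace Pool.Agent.H76.PS

open Pool.Agent.Y715.Gi (QB KK GK)
open Pool.Agent.Z384
open Matrix IsLocalRing

variable {s : QB}

/-- descent of a function of two variables to the quotient -/
lemma descend2 {X : Type} [TopologicalSpace X] {z : GK s → GK s → X}
    (hz : Continuous fun v : GK s × GK s => z v.1 v.2)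
    (h1 : ∀ σ τ, ∀ n ∈ Nf s, z (σ * n) τ = z σ τ) (h2 : ∀ σ τ, ∀ n ∈ Nf s, z σ (τ * n) = z σ τ) :
    ∃ z' : Gs s → Gs s → X, Continuous (fun v : Gs s × Gs s => z' v.1 v.2) ∧
      ∀ σ τ, z' (QuotientGroup.mk σ) (QuotientGroup.mk τ) = z σ τ := by
  have hh : ∀ σ σ' τ τ' : GK s, (QuotientGroup.leftRel (Nf s)) σ σ' →
      (QuotientGroup.leftRel (Nf s)) τ τ' → z σ τ = z σ' τ' := by
    intro σ σ' τ τ' hσ hτ
    rw [QuotientGroup.leftRel_apply] at hσ hτ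
    have e1 : σ' = σ * (σ⁻¹ * σ') := by group
    have e2 : τ' = τ * (τ⁻¹ * τ') := by group
    rw [e1, e2, h1 _ _ _ hσ, h2 _ _ _ hτ]
  refine ⟨fun x y => Quotient.liftOn₂' x y z fun σ τ σ' τ' hσ hτ => hh σ σ' τ τ' hσ hτ, ?_,
    fun σ τ => rfl⟩
  have h3 := (QuotientGroup.isOpenQuotientMap_mk (N := Nf s)).prodMap
    (QuotientGroup.isOpenQuotientMap_mk (N := Nf s))
  exact h3.isQuotientMap.continuous_iff.2 hz

/-- the class of the `ℤ_2`-valued two-cochains: the data of part B on the group `GK s` -/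
structure Dat (χ : GK s → ℤ_[2]) (cj : GK s → GK s) (z₀ : GK s → GK s → ℤ_[2]) : Prop where
  gen : ∀ z : GK s → GK s → ℤ_[2], Continuous (fun v : GK s × GK s => z v.1 v.2) →
    (∀ σ τ, ∀ n ∈ Nf s, z (σ * n) τ = z σ τ) → (∀ σ τ, ∀ n ∈ Nf s, z σ (τ * n) = z σ τ) →
    (∀ x y w, χ x * z y w - z (x * y) w + z x (y * w) - z x y = 0) →
    ∃ (N : ℕ) (a : ℤ_[2]) (f : GK s → ℤ_[2]), Continuous f ∧
      ∀ x y, 2 ^ N * z x y = a * z₀ x y + (f x + χ x * f y - f (x * y))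
  inv : ∀ z : GK s → GK s → ℤ_[2], Continuous (fun v : GK s × GK s => z v.1 v.2) →
    (∀ σ τ, ∀ n ∈ Nf s, z (σ * n) τ = z σ τ) → (∀ σ τ, ∀ n ∈ Nf s, z σ (τ * n) = z σ τ) →
    (∀ x y w, χ x * z y w - z (x * y) w + z x (y * w) - z x y = 0) →
    ∃ (N : ℕ) (f : GK s → ℤ_[2]), Continuous f ∧
      ∀ x y, 2 ^ N * (z (cj x) (cj y) - z x y) = f x + χ x * f y - f (x * y)

/-- a bounded function -/
lemma exists_scale {G : Type} [TopologicalSpace G] [CompactSpace G] {f : G → ℚ_[2]}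
    (hf : Continuous f) : ∃ (N : ℕ) (g : G → ℤ_[2]), Continuous g ∧ ∀ x, (g x : ℚ_[2]) = 2 ^ N * f x := by
  obtain ⟨C, hC⟩ : ∃ C, ∀ x, ‖f x‖ ≤ C := by
    obtain ⟨C, hC⟩ := (isCompact_range hf).isBounded.exists_norm_le
    exact ⟨C, fun x => hC _ ⟨x, rfl⟩⟩
  obtain ⟨N, hN⟩ : ∃ N : ℕ, C ≤ 2 ^ N := by
    obtain ⟨N, hN⟩ := pow_unbounded_of_one_lt C (one_lt_two)
    exact ⟨N, hN.le⟩
  have h1 : ∀ x, ‖(2 : ℚ_[2]) ^ N * f x‖ ≤ 1 := by
    intro x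
    have e : ‖(2 : ℚ_[2])‖ = (2 : ℝ)⁻¹ := by
      have := Padic.norm_p (p := 2)
      exact_mod_cast this
    rw [norm_mul, norm_pow, e, inv_pow]
    rw [inv_mul_le_iff₀ (by positivity), mul_one]
    exact (hC x).trans hN
  refine ⟨N, fun x => ⟨2 ^ N * f x, h1 x⟩, ?_, fun x => rfl⟩
  exact Continuous.subtype_mk (continuous_const.mul hf) _

theorem exists_dat (hB : StB) (hE0 : StE0) (hG1 : StG1) (hG2 : StG2) (hH : StH) (hA : StA) (hE : StE)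
    {d : ℕ} (hs : s ^ 2 = -(d : QB)) (hF : Fld d) {χ : GK s → ℤ_[2]} (hχ : IsCyc χ)
    {c : QB ≃ₐ[ℚ] QB} (hc : IsConj c) {cj : GK s → GK s} (hcj : ∀ σ x, cj σ x = c (σ (c x))) :
    ∃ z₀, Dat χ cj z₀ := by
  obtain ⟨hcomp, hpow, -⟩ := hE0 s d hs hF
  obtain ⟨hcnt, -⟩ := hE s d hs hF
  obtain ⟨hχc, hχn⟩ := hG1 s χ hχ
  have hcc : CompactSpace (GK s) := inferInstance
  obtain ⟨A1, A2⟩ := hA (Gs s) 1 le_rfl hcnt hpow
  -- the character of the quotient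
  obtain ⟨χ', hχ'⟩ : ∃ χ' : Gs s → ℤ_[2], ∀ σ : GK s, χ' (QuotientGroup.mk σ) = χ σ := by
    refine ⟨fun x => Quotient.liftOn' x χ fun σ τ h => ?_, fun σ => rfl⟩
    rw [QuotientGroup.leftRel_apply] at h
    have e1 : τ = σ * (σ⁻¹ * τ) := by group
    rw [e1, hχn _ _ h]
  have hmk : Function.Surjective (QuotientGroup.mk : GK s → Gs s) := QuotientGroup.mk_surjective
  have hχ'c : IsChar χ' := by
    refine ⟨?_, ?_, ?_⟩
    · refine (QuotientGroup.isOpenQuotientMap_mk (N := Nf s)).isQuotientMap.continuous_iff.2 ?_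
      have : χ' ∘ (QuotientGroup.mk : GK s → Gs s) = χ := funext hχ'
      rw [this]
      exact hχc.cont
    · have := hχ' 1
      rw [hχc.one] at this
      exact this
    · intro x y
      obtain ⟨σ, rfl⟩ := hmk x
      obtain ⟨τ, rfl⟩ := hmk y
      rw [← QuotientGroup.mk_mul, hχ', hχ', hχ', hχc.mul]
  obtain ⟨⟨z₀', hz₀', hgen⟩, hinv⟩ := hB (Gs s) χ' hχ'c A1 (hG2 s d hs hF χ hχ χ' hχ')
    (cq hc hcj) (cq_cont hc hcj) (map_mul _) (cq_cq hc hcj) (fun x => by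
      obtain ⟨σ, rfl⟩ := hmk x
      rw [cq_mk, hχ', hχ', cyc_cj hc hcj hχ]) (hH s d hs hF χ hχ χ' hχ' c hc cj hcj (cq hc hcj)
      (cq_mk hc hcj) A2)
  have hdes : ∀ z : GK s → GK s → ℤ_[2], Continuous (fun v : GK s × GK s => z v.1 v.2) →
    (∀ σ τ, ∀ n ∈ Nf s, z (σ * n) τ = z σ τ) → (∀ σ τ, ∀ n ∈ Nf s, z σ (τ * n) = z σ τ) →
    (∀ x y w, χ x * z y w - z (x * y) w + z x (y * w) - z x y = 0) → ∃ z' ∈ Zp χ',
      ∀ σ τ, z' (QuotientGroup.mk σ) (QuotientGroup.mk τ) = z σ τ := by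
    intro z h1 h2 h3 h4
    obtain ⟨z', hz'c, hz'⟩ := descend2 h1 h2 h3
    refine ⟨z', ⟨hz'c, fun x y w => ?_⟩, hz'⟩
    obtain ⟨σ, rfl⟩ := hmk x
    obtain ⟨τ, rfl⟩ := hmk y
    obtain ⟨υ, rfl⟩ := hmk w
    rw [← QuotientGroup.mk_mul, ← QuotientGroup.mk_mul, hz', hz', hz', hz', hχ', h4]
  refine ⟨fun σ τ => z₀' (QuotientGroup.mk σ) (QuotientGroup.mk τ), ?_, ?_⟩
  · intro z h1 h2 h3 h4
    obtain ⟨z', hz', hzz⟩ := hdes z h1 h2 h3 h4
    obtain ⟨a, f, hf, hfz⟩ := hgen z' hz'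
    obtain ⟨N, g, hg, hgf⟩ := exists_scale hf
    obtain ⟨M, hM⟩ : ∃ M : ℕ, ‖(2 : ℚ_[2]) ^ M * a‖ ≤ 1 := by
      obtain ⟨M, g', -, hg'⟩ := exists_scale (G := Unit) (f := fun _ => a) continuous_const
      exact ⟨M, by rw [← hg' ()]; exact (g' ()).2⟩
    refine ⟨N + M, 2 ^ N * ⟨2 ^ M * a, hM⟩, fun σ => 2 ^ M * g (QuotientGroup.mk σ),
      continuous_const.mul (hg.comp QuotientGroup.continuous_mk), fun x y => ?_⟩
    apply PadicInt.ext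
    have h5 := hfz (QuotientGroup.mk x) (QuotientGroup.mk y)
    beta_reduce at h5
    rw [hzz, hχ', ← QuotientGroup.mk_mul] at h5
    have e2 : ((2 : ℤ_[2]) : ℚ_[2]) = 2 := rfl
    push_cast
    simp only [e2]
    rw [hgf, hgf, hgf]
    show (2 : ℚ_[2]) ^ (N + M) * (z x y : ℚ_[2]) = 2 ^ N * (2 ^ M * a) * _ + _
    rw [pow_add]
    linear_combination (2 : ℚ_[2]) ^ N * 2 ^ M * h5
  · intro z h1 h2 h3 h4
    obtain ⟨z', hz', hzz⟩ := hdes z h1 h2 h3 h4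
    obtain ⟨f, hf, hfz⟩ := hinv z' hz'
    obtain ⟨N, g, hg, hgf⟩ := exists_scale hf
    refine ⟨N, fun σ => g (QuotientGroup.mk σ), hg.comp QuotientGroup.continuous_mk, fun x y => ?_⟩
    apply PadicInt.ext
    have h5 := hfz (QuotientGroup.mk x) (QuotientGroup.mk y)
    beta_reduce at h5
    rw [cq_mk, cq_mk, hzz, hzz, hχ', ← QuotientGroup.mk_mul] at h5
    have e2 : ((2 : ℤ_[2]) : ℚ_[2]) = 2 := rfl
    push_cast
    simp only [e2]
    rw [hgf, hgf, hgf]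
    linear_combination (2 : ℚ_[2]) ^ N * h5

end Pool.Agent.H76.PS
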