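import Pool.Agent.H76.PS.I3

/-!
# The skew-symmetric form and the kernel vector
-/

set_option autoImplicit false
set_option linter.unusedSectionVars false

namespace Pool.Agent.H76.PS

open Pool.Agent.Y715.Gi (QB KK GK)
open Pool.Agent.Z384
open Matrix IsLocalRing

variable {s : QB} {A : Type} [CommRing A] [IsDomain A] [IsLocalRing A] [IsNoetherianRing A]
  [TopologicalSpace A] [IsTopologicalRing A] [Algebra ℤ_[2] A] {n : ℕ}

/-- continuous coboundaries with values in `A(1)` -/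
def BA (A : Type) [CommRing A] [TopologicalSpace A] [Algebra ℤ_[2] A] (χ : GK s → ℤ_[2]) :
    Set (GK s → GK s → A) :=
  {z | ∃ f : GK s → A, Continuous f ∧ ∀ x y, z x y = f x + χ x • f y - f (x * y)}

lemma BA.add {χ : GK s → ℤ_[2]} {z z' : GK s → GK s → A} (h : z ∈ BA A χ) (h' : z' ∈ BA A χ) :
    z + z' ∈ BA A χ := by
  obtain ⟨f, hf, hz⟩ := h
  obtain ⟨f', hf', hz'⟩ := h'
  refine ⟨fun x => f x + f' x, hf.add hf', fun x y => ?_⟩
  simp only [Pi.add_apply, hz, hz', smul_add]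
  ring

lemma BA.mul {χ : GK s → ℤ_[2]} {z : GK s → GK s → A} (h : z ∈ BA A χ) (a : A) :
    (fun x y => a * z x y) ∈ BA A χ := by
  obtain ⟨f, hf, hz⟩ := h
  refine ⟨fun x => a * f x, continuous_const.mul hf, fun x y => ?_⟩
  simp only [hz, mul_add, mul_sub, mul_smul_comm]

/-- continuous invariant cocycles with values in `A(1)` -/
structure ZA (χ : GK s → ℤ_[2]) (z : GK s → GK s → A) : Prop where
  cont : Continuous (fun v : GK s × GK s => z v.1 v.2)
  inv1 : ∀ σ τ, ∀ n ∈ Nf s, z (σ * n) τ = z σ τ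
  inv2 : ∀ σ τ, ∀ n ∈ Nf s, z σ (τ * n) = z σ τ
  coc : ∀ x y w, χ x • z y w - z (x * y) w + z x (y * w) - z x y = 0

section basis

variable {r : ℕ} (b : Module.Basis (Fin r) ℤ_[2] A) (hb : ∀ e, Continuous fun a : A => b.repr a e)
  (hsm : Continuous fun t : ℤ_[2] => algebraMap ℤ_[2] A t)
  {χ : GK s → ℤ_[2]} {cj : GK s → GK s} {z₀ : GK s → GK s → ℤ_[2]}

include hb hsm in
lemma genA (hD : Dat χ cj z₀) {z : GK s → GK s → A} (hz : ZA χ z) :
    ∃ (N : ℕ) (a : A), (fun x y => 2 ^ N * z x y - a * algebraMap ℤ_[2] A (z₀ x y)) ∈ BA A χ := by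
  have h1 : ∀ e, ∃ (N : ℕ) (a : ℤ_[2]) (f : GK s → ℤ_[2]), Continuous f ∧
      ∀ x y, 2 ^ N * b.repr (z x y) e = a * z₀ x y + (f x + χ x * f y - f (x * y)) := by
    intro e
    refine hD.gen (fun x y => b.repr (z x y) e) ((hb e).comp hz.cont) (fun σ τ n hn => ?_)
      (fun σ τ n hn => ?_) fun x y w => ?_
    · beta_reduce
      rw [hz.inv1 σ τ n hn]
    · beta_reduce
      rw [hz.inv2 σ τ n hn]
    · have h2 := congrArg (fun a => b.repr a e) (hz.coc x y w)
      simpa using h2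
  choose N a f hf h using h1
  have hN : ∀ e, (2 : ℤ_[2]) ^ (∑ e, N e) = 2 ^ (∑ i ∈ Finset.univ.erase e, N i) * 2 ^ N e := by
    intro e
    rw [← pow_add, Finset.sum_erase_add _ _ (Finset.mem_univ e)]
  refine ⟨∑ e, N e, ∑ e, algebraMap ℤ_[2] A (2 ^ (∑ i ∈ Finset.univ.erase e, N i) * a e) * b e,
    fun x => ∑ e, algebraMap ℤ_[2] A (2 ^ (∑ i ∈ Finset.univ.erase e, N i) * f e x) * b e, ?_,
    fun x y => ?_⟩
  · refine continuous_finsetSum _ fun e _ => ?_
    exact (hsm.comp (continuous_const.mul (hf e))).mul continuous_const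
  · have e1 : (2 : A) ^ (∑ e, N e) * z x y =
        ∑ e, algebraMap ℤ_[2] A (2 ^ (∑ e, N e) * b.repr (z x y) e) * b e := by
      conv_lhs => rw [← b.sum_repr (z x y), Finset.mul_sum]
      refine Finset.sum_congr rfl fun e _ => ?_
      rw [Algebra.smul_def, map_mul, map_pow, map_ofNat]
      ring
    beta_reduce
    rw [e1, Finset.sum_mul, Finset.smul_sum, ← Finset.sum_sub_distrib, ← Finset.sum_add_distrib,
      ← Finset.sum_sub_distrib]
    refine Finset.sum_congr rfl fun e _ => ?_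
    have h3 : (2 : ℤ_[2]) ^ (∑ e, N e) * b.repr (z x y) e =
        2 ^ (∑ i ∈ Finset.univ.erase e, N i) * (a e * z₀ x y + (f e x + χ x * f e y - f e (x * y))) := by
      rw [hN e, mul_assoc, h e]
    rw [h3, Algebra.smul_def]
    simp only [map_mul, map_add, map_sub]
    ring

include hb hsm in
lemma invA (hD : Dat χ cj z₀) {z : GK s → GK s → A} (hz : ZA χ z) :
    ∃ (N : ℕ), (fun x y => 2 ^ N * (z (cj x) (cj y) - z x y)) ∈ BA A χ := by
  have h1 : ∀ e, ∃ (N : ℕ) (f : GK s → ℤ_[2]), Continuous f ∧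
      ∀ x y, 2 ^ N * (b.repr (z (cj x) (cj y)) e - b.repr (z x y) e) =
        f x + χ x * f y - f (x * y) := by
    intro e
    refine hD.inv (fun x y => b.repr (z x y) e) ((hb e).comp hz.cont) (fun σ τ n hn => ?_)
      (fun σ τ n hn => ?_) fun x y w => ?_
    · beta_reduce
      rw [hz.inv1 σ τ n hn]
    · beta_reduce
      rw [hz.inv2 σ τ n hn]
    · have h2 := congrArg (fun a => b.repr a e) (hz.coc x y w)
      simpa using h2
  choose N f hf h using h1
  have hN : ∀ e, (2 : ℤ_[2]) ^ (∑ e, N e) = 2 ^ (∑ i ∈ Finset.univ.erase e, N i) * 2 ^ N e := by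
    intro e
    rw [← pow_add, Finset.sum_erase_add _ _ (Finset.mem_univ e)]
  refine ⟨∑ e, N e,
    fun x => ∑ e, algebraMap ℤ_[2] A (2 ^ (∑ i ∈ Finset.univ.erase e, N i) * f e x) * b e, ?_,
    fun x y => ?_⟩
  · refine continuous_finsetSum _ fun e _ => ?_
    exact (hsm.comp (continuous_const.mul (hf e))).mul continuous_const
  · have e1 : (2 : A) ^ (∑ e, N e) * (z (cj x) (cj y) - z x y) =
        ∑ e, algebraMap ℤ_[2] A (2 ^ (∑ e, N e) *
          (b.repr (z (cj x) (cj y)) e - b.repr (z x y) e)) * b e := by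
      conv_lhs => rw [← b.sum_repr (z (cj x) (cj y) - z x y), Finset.mul_sum]
      refine Finset.sum_congr rfl fun e _ => ?_
      rw [Algebra.smul_def, map_mul, map_pow, map_ofNat, map_sub, Finsupp.sub_apply]
      ring
    beta_reduce
    rw [e1, Finset.smul_sum, ← Finset.sum_add_distrib, ← Finset.sum_sub_distrib]
    refine Finset.sum_congr rfl fun e _ => ?_
    have h3 : (2 : ℤ_[2]) ^ (∑ e, N e) * (b.repr (z (cj x) (cj y)) e - b.repr (z x y) e) =
        2 ^ (∑ i ∈ Finset.univ.erase e, N i) * (f e x + χ x * f e y - f e (x * y)) := by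
      rw [hN e, mul_assoc, h e]
    rw [h3, Algebra.smul_def]
    simp only [map_mul, map_add, map_sub]
    ring

include hb hsm in
/-- if a nonzero multiple of the basic class is trivial then every class is torsion -/
lemma triv (hD : Dat χ cj z₀) {a : A} (ha : a ≠ 0)
    (h0 : (fun x y => a * algebraMap ℤ_[2] A (z₀ x y)) ∈ BA A χ) {z : GK s → GK s → A}
    (hz : ZA χ z) : ∃ m : A, m ≠ 0 ∧ (fun x y => m * z x y) ∈ BA A χ := by
  obtain ⟨f, hf, hfz⟩ := h0
  obtain ⟨e, he⟩ : ∃ e, b.repr a e ≠ 0 := by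
    by_contra h
    push Not at h
    exact ha (b.repr.map_eq_zero_iff.1 (Finsupp.ext h))
  obtain ⟨N, a', h2⟩ := genA b hb hsm hD hz
  have hinj : Function.Injective (algebraMap ℤ_[2] A) := by
    intro u v huv
    have h3 : (u - v) • a = 0 := by rw [Algebra.smul_def, map_sub, huv, sub_self, zero_mul]
    have h4 : (u - v) * b.repr a e = 0 := by
      have := congrArg (fun x => b.repr x e) h3
      simpa using this
    exact sub_eq_zero.1 ((mul_eq_zero.1 h4).resolve_right he)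
  have h2A : (2 : A) ≠ 0 := by
    have : algebraMap ℤ_[2] A 2 ≠ 0 := (map_ne_zero_iff _ hinj).2 two_ne_zero
    rwa [map_ofNat] at this
  have h5 : (fun x y => algebraMap ℤ_[2] A (b.repr a e) * algebraMap ℤ_[2] A (z₀ x y)) ∈ BA A χ := by
    refine ⟨fun x => algebraMap ℤ_[2] A (b.repr (f x) e), hsm.comp ((hb e).comp hf), fun x y => ?_⟩
    have h6 := congrArg (fun a => algebraMap ℤ_[2] A (b.repr a e)) (hfz x y)
    have h7 : a * algebraMap ℤ_[2] A (z₀ x y) = (z₀ x y) • a := by rw [Algebra.smul_def, mul_comm]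
    beta_reduce at h6
    rw [h7] at h6
    simp only [map_smul, map_add, map_sub, Finsupp.smul_apply, Finsupp.add_apply,
      Finsupp.sub_apply, smul_eq_mul, map_mul] at h6
    rw [Algebra.smul_def]
    beta_reduce
    linear_combination h6
  refine ⟨algebraMap ℤ_[2] A (b.repr a e) * 2 ^ N,
    mul_ne_zero ((map_ne_zero_iff _ hinj).2 he) (pow_ne_zero _ h2A), ?_⟩
  have h8 := BA.add (BA.mul h2 (algebraMap ℤ_[2] A (b.repr a e))) (BA.mul h5 a')
  have h9 : ((fun x y => algebraMap ℤ_[2] A (b.repr a e) *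
      (2 ^ N * z x y - a' * algebraMap ℤ_[2] A (z₀ x y))) + fun x y =>
      a' * (algebraMap ℤ_[2] A (b.repr a e) * algebraMap ℤ_[2] A (z₀ x y))) =
      fun x y => algebraMap ℤ_[2] A (b.repr a e) * 2 ^ N * z x y := by
    funext x y
    simp only [Pi.add_apply]
    ring
  rwa [h9] at h8

end basis

/-! ### The pairing -/

section pairing

variable {ρ : GK s →* GL (Fin n) A} {J : Matrix (Fin n) (Fin n) A} {χ : GK s → ℤ_[2]}
  {cj : GK s → GK s}

/-- the cup product of `x` and the conjugate of `y` -/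
noncomputable def cpr (J : Matrix (Fin n) (Fin n) A) (ρ : GK s →* GL (Fin n) A) (cj : GK s → GK s)
    (x y : GK s → Fin n → A) (g h : GK s) : A :=
  x g ⬝ᵥ (J *ᵥ ((ρ (cj g) : Matrix (Fin n) (Fin n) A) *ᵥ y (cj h)))

lemma dot_tr (R : Matrix (Fin n) (Fin n) A) (u w : Fin n → A) :
    (R *ᵥ u) ⬝ᵥ w = u ⬝ᵥ (Rᵀ *ᵥ w) := by
  rw [Matrix.dotProduct_mulVec, Matrix.vecMul_transpose]

lemma pair_aux (R R' : Matrix (Fin n) (Fin n) A) (u v : Fin n → A) :
    (R *ᵥ u) ⬝ᵥ (J *ᵥ (R' *ᵥ v)) = u ⬝ᵥ ((Rᵀ * J * R') *ᵥ v) := by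
  rw [dot_tr, Matrix.mulVec_mulVec, Matrix.mulVec_mulVec]

lemma dot_sym (hJ : J.IsSymm) (u v : Fin n → A) : u ⬝ᵥ (J *ᵥ v) = v ⬝ᵥ (J *ᵥ u) := by
  rw [dotProduct_comm, dot_tr, hJ.eq]

lemma cpr_coc (hJρ : ∀ σ, (ρ σ : Matrix (Fin n) (Fin n) A)ᵀ * J * (ρ (cj σ) : Matrix _ _ A) = χ σ • J)
    (hcm : ∀ σ τ, cj (σ * τ) = cj σ * cj τ) {x y : GK s → Fin n → A}
    (hx : ∀ σ τ, x (σ * τ) = x σ + (ρ σ : Matrix (Fin n) (Fin n) A) *ᵥ x τ)
    (hy : ∀ σ τ, y (σ * τ) = y σ + (ρ σ : Matrix (Fin n) (Fin n) A) *ᵥ y τ) (g h k : GK s) :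
    χ g • cpr J ρ cj x y h k - cpr J ρ cj x y (g * h) k + cpr J ρ cj x y g (h * k) -
      cpr J ρ cj x y g h = 0 := by
  have e1 : cpr J ρ cj x y (g * h) k = x g ⬝ᵥ (J *ᵥ ((ρ (cj g) : Matrix (Fin n) (Fin n) A) *ᵥ
      ((ρ (cj h) : Matrix (Fin n) (Fin n) A) *ᵥ y (cj k)))) + χ g • cpr J ρ cj x y h k := by
    unfold cpr
    rw [hx, hcm, map_mul, Units.val_mul, ← Matrix.mulVec_mulVec, add_dotProduct, pair_aux, hJρ,
      Matrix.smul_mulVec, dotProduct_smul]
  have e2 : cpr J ρ cj x y g (h * k) = cpr J ρ cj x y g h +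
      x g ⬝ᵥ (J *ᵥ ((ρ (cj g) : Matrix (Fin n) (Fin n) A) *ᵥ
      ((ρ (cj h) : Matrix (Fin n) (Fin n) A) *ᵥ y (cj k)))) := by
    unfold cpr
    rw [hcm, hy, Matrix.mulVec_add, Matrix.mulVec_add, dotProduct_add]
  rw [e1, e2]
  ring

lemma cpr_skew (hJ : J.IsSymm)
    (hJρ : ∀ σ, (ρ σ : Matrix (Fin n) (Fin n) A)ᵀ * J * (ρ (cj σ) : Matrix _ _ A) = χ σ • J)
    (hcm : ∀ σ τ, cj (σ * τ) = cj σ * cj τ) (hcc : ∀ σ, cj (cj σ) = σ) {x y : GK s → Fin n → A}
    (hx : ∀ σ τ, x (σ * τ) = x σ + (ρ σ : Matrix (Fin n) (Fin n) A) *ᵥ x τ)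
    (hy : ∀ σ τ, y (σ * τ) = y σ + (ρ σ : Matrix (Fin n) (Fin n) A) *ᵥ y τ) (g h : GK s) :
    cpr J ρ cj y x g h + cpr J ρ cj x y (cj g) (cj h) =
      (-(y g ⬝ᵥ (J *ᵥ x (cj g)))) + χ g • (-(y h ⬝ᵥ (J *ᵥ x (cj h)))) -
        (-(y (g * h) ⬝ᵥ (J *ᵥ x (cj (g * h))))) := by
  have e1 : y (g * h) ⬝ᵥ (J *ᵥ x (cj (g * h))) = y g ⬝ᵥ (J *ᵥ x (cj g)) + cpr J ρ cj y x g h +
      cpr J ρ cj x y (cj g) (cj h) + χ g • (y h ⬝ᵥ (J *ᵥ x (cj h))) := by
    rw [hcm, hx, hy, add_dotProduct, Matrix.mulVec_add, dotProduct_add, dotProduct_add, pair_aux,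
      hJρ, Matrix.smul_mulVec, dotProduct_smul]
    unfold cpr
    rw [hcc, hcc, dot_sym hJ (x (cj g))]
    ring
  rw [e1, smul_neg]
  ring

end pairing

/-! ### The main theorem -/

section main

variable {r : ℕ} (b : Module.Basis (Fin r) ℤ_[2] A) (hb : ∀ e, Continuous fun a : A => b.repr a e)
  (hsm : Continuous fun t : ℤ_[2] => algebraMap ℤ_[2] A t)
  {χ : GK s → ℤ_[2]} {cj : GK s → GK s} {z₀ : GK s → GK s → ℤ_[2]}

include hb hsm in
/-- **The skew-symmetric form.** -/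
theorem form_exists (hD : Dat χ cj z₀) (h2 : (2 : A) ≠ 0)
    {ρ : GK s →* GL (Fin n) A} (hρc : ∀ i j, Continuous fun σ => (ρ σ : Matrix (Fin n) (Fin n) A) i j)
    (hρn : ∀ σ ∈ Nf s, ρ σ = 1) {J : Matrix (Fin n) (Fin n) A} (hJ : J.IsSymm)
    (hJρ : ∀ σ, (ρ σ : Matrix (Fin n) (Fin n) A)ᵀ * J * (ρ (cj σ) : Matrix _ _ A) = χ σ • J)
    (hcc : Continuous cj) (hcm : ∀ σ τ, cj (σ * τ) = cj σ * cj τ) (hci : ∀ σ, cj (cj σ) = σ)
    (hcn : ∀ σ ∈ Nf s, cj σ ∈ Nf s) {k : ℕ} {x : Fin k → GK s → Fin n → A}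
    (hxc : ∀ i, Continuous (x i))
    (hx : ∀ i σ τ, x i (σ * τ) = x i σ + (ρ σ : Matrix (Fin n) (Fin n) A) *ᵥ x i τ)
    (hxn : ∀ i, ∀ σ ∈ Nf s, x i σ = 0) :
    ∃ C : Matrix (Fin k) (Fin k) A, Cᵀ = -C ∧ ∀ (v : Fin k → A) (i : Fin k),
      (∃ m : A, m ≠ 0 ∧ (fun g h => m * cpr J ρ cj (x i) (fun σ => ∑ j, v j • x j σ) g h) ∈ BA A χ) ↔
        (C *ᵥ v) i = 0 := by
  classical
  have hZ : ∀ i j, ZA χ (cpr J ρ cj (x i) (x j)) := by
    intro i j
    refine ⟨?_, fun σ τ n hn => ?_, fun σ τ n hn => ?_, cpr_coc hJρ hcm (hx i) (hx j)⟩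
    · have h3 : Continuous fun v : GK s × GK s => (ρ (cj v.1) : Matrix (Fin n) (Fin n) A) :=
        continuous_matrix fun a c => (hρc a c).comp (hcc.comp continuous_fst)
      have h4 : Continuous fun v : GK s × GK s => x j (cj v.2) := (hxc j).comp (hcc.comp continuous_snd)
      have h5 : Continuous fun v : GK s × GK s => x i v.1 := (hxc i).comp continuous_fst
      exact h5.dotProduct (continuous_const.matrix_mulVec (h3.matrix_mulVec h4))
    · unfold cpr
      rw [hx, hxn i n hn, Matrix.mulVec_zero, add_zero, hcm, map_mul, hρn _ (hcn n hn), mul_one]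
    · unfold cpr
      rw [hcm, hx, hxn j _ (hcn n hn), Matrix.mulVec_zero, add_zero]
  have hlin : ∀ (v : Fin k → A) (i : Fin k) (g h : GK s),
      cpr J ρ cj (x i) (fun σ => ∑ j, v j • x j σ) g h = ∑ j, v j * cpr J ρ cj (x i) (x j) g h := by
    intro v i g h
    unfold cpr
    rw [Matrix.mulVec_sum, Matrix.mulVec_sum, dotProduct_sum]
    refine Finset.sum_congr rfl fun j _ => ?_
    rw [Matrix.mulVec_smul, Matrix.mulVec_smul, dotProduct_smul, smul_eq_mul]
  have hsum : ∀ {ι : Type} (t : Finset ι) (F : ι → GK s → GK s → A), (∀ j ∈ t, F j ∈ BA A χ) →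
      (fun g h => ∑ j ∈ t, F j g h) ∈ BA A χ := by
    intro ι t F hF
    induction t using Finset.induction_on with
    | empty => exact ⟨fun _ => 0, continuous_const, fun x y => by simp⟩
    | insert a t ha ih =>
      have e1 : (fun g h => ∑ j ∈ insert a t, F j g h) = F a + fun g h => ∑ j ∈ t, F j g h := by
        funext g h
        rw [Finset.sum_insert ha]
        rfl
      rw [e1]
      exact BA.add (hF a (Finset.mem_insert_self _ _)) (ih fun j hj => hF j (Finset.mem_insert_of_mem hj))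
  by_cases hT : ∃ a : A, a ≠ 0 ∧ (fun x y => a * algebraMap ℤ_[2] A (z₀ x y)) ∈ BA A χ
  · -- every class is torsion
    obtain ⟨a, ha, h0⟩ := hT
    refine ⟨0, by simp, fun v i => iff_of_true ?_ (by rw [Matrix.zero_mulVec]; rfl)⟩
    choose m hm h3 using fun j => triv b hb hsm hD ha h0 (hZ i j)
    refine ⟨∏ j, m j, Finset.prod_ne_zero_iff.2 fun j _ => hm j, ?_⟩
    have h4 := hsum Finset.univ (fun j g h => (v j * ∏ l ∈ Finset.univ.erase j, m l) *
      (m j * cpr J ρ cj (x i) (x j) g h)) fun j _ => BA.mul (h3 j) _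
    have e1 : (fun g h => ∑ j, (v j * ∏ l ∈ Finset.univ.erase j, m l) *
      (m j * cpr J ρ cj (x i) (x j) g h)) = fun g h => (∏ j, m j) *
        cpr J ρ cj (x i) (fun σ => ∑ j, v j • x j σ) g h := by
      funext g h
      rw [hlin, Finset.mul_sum]
      refine Finset.sum_congr rfl fun j _ => ?_
      rw [← Finset.mul_prod_erase Finset.univ m (Finset.mem_univ j)]
      ring
    rwa [e1] at h4
  · have hN : ∀ a : A, (fun x y => a * algebraMap ℤ_[2] A (z₀ x y)) ∈ BA A χ → a = 0 := by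
      intro a h
      by_contra ha
      exact hT ⟨a, ha, h⟩
    choose N B hB using fun i j => genA b hb hsm hD (hZ i j)
    set M : ℕ := ∑ i, ∑ j, N i j with hM
    have hle : ∀ i j, N i j ≤ M := fun i j =>
      (Finset.single_le_sum (f := fun j => N i j) (fun _ _ => Nat.zero_le _) (Finset.mem_univ j)).trans
        (Finset.single_le_sum (f := fun i => ∑ j, N i j) (fun _ _ => Nat.zero_le _) (Finset.mem_univ i))
    set C : Matrix (Fin k) (Fin k) A := Matrix.of fun i j => 2 ^ (M - N i j) * B i j with hC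
    have hB' : ∀ i j, (fun g h => 2 ^ M * cpr J ρ cj (x i) (x j) g h -
        C i j * algebraMap ℤ_[2] A (z₀ g h)) ∈ BA A χ := by
      intro i j
      have h3 := BA.mul (hB i j) (2 ^ (M - N i j))
      have e1 : (fun g h => (2 : A) ^ (M - N i j) * (2 ^ N i j * cpr J ρ cj (x i) (x j) g h -
          B i j * algebraMap ℤ_[2] A (z₀ g h))) = fun g h => 2 ^ M * cpr J ρ cj (x i) (x j) g h -
        C i j * algebraMap ℤ_[2] A (z₀ g h) := by
        funext g h
        have e2 : (2 : A) ^ M = 2 ^ (M - N i j) * 2 ^ N i j := by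
          rw [← pow_add, Nat.sub_add_cancel (hle i j)]
        rw [e2, hC, Matrix.of_apply]
        ring
      rwa [e1] at h3
    have hskew : ∀ i j, C i j = -C j i := by
      intro i j
      -- `z_ji + z_ij^c` is a coboundary
      have h3 : (fun g h => cpr J ρ cj (x j) (x i) g h + cpr J ρ cj (x i) (x j) (cj g) (cj h)) ∈
          BA A χ := by
        refine ⟨fun g => -(x j g ⬝ᵥ (J *ᵥ x i (cj g))), ?_, fun g h =>
          cpr_skew hJ hJρ hcm hci (hx i) (hx j) g h⟩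
        exact ((hxc j).dotProduct (continuous_const.matrix_mulVec ((hxc i).comp hcc))).neg
      obtain ⟨N', h4⟩ := invA b hb hsm hD (hZ i j)
      have h5 := BA.add (BA.add (BA.mul (hB' i j) (2 ^ N')) (BA.mul (hB' j i) (2 ^ N')))
        (BA.add (BA.mul h4 (2 ^ M)) (BA.mul h3 (-(2 ^ N' * 2 ^ M))))
      have e1 : ((fun g h => (2 : A) ^ N' * (2 ^ M * cpr J ρ cj (x i) (x j) g h -
            C i j * algebraMap ℤ_[2] A (z₀ g h))) + (fun g h => (2 : A) ^ N' *
            (2 ^ M * cpr J ρ cj (x j) (x i) g h - C j i * algebraMap ℤ_[2] A (z₀ g h))) +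
          ((fun g h => (2 : A) ^ M * (2 ^ N' * (cpr J ρ cj (x i) (x j) (cj g) (cj h) -
            cpr J ρ cj (x i) (x j) g h))) + fun g h => -((2 : A) ^ N' * 2 ^ M) *
            (cpr J ρ cj (x j) (x i) g h + cpr J ρ cj (x i) (x j) (cj g) (cj h)))) =
          fun g h => -(2 ^ N' * (C i j + C j i)) * algebraMap ℤ_[2] A (z₀ g h) := by
        funext g h
        simp only [Pi.add_apply]
        ring
      rw [e1] at h5
      have h6 := hN _ h5
      rw [neg_eq_zero] at h6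
      exact eq_neg_of_add_eq_zero_left ((mul_eq_zero.1 h6).resolve_left (pow_ne_zero _ h2))
    refine ⟨C, by ext i j; rw [Matrix.transpose_apply, Matrix.neg_apply, hskew], fun v i => ?_⟩
    have h3 := hsum Finset.univ (fun j g h => v j * (2 ^ M * cpr J ρ cj (x i) (x j) g h -
        C i j * algebraMap ℤ_[2] A (z₀ g h))) fun j _ => BA.mul (hB' i j) (v j)
    have e1 : (fun g h => ∑ j, v j * (2 ^ M * cpr J ρ cj (x i) (x j) g h -
        C i j * algebraMap ℤ_[2] A (z₀ g h))) =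
        fun g h => 2 ^ M * cpr J ρ cj (x i) (fun σ => ∑ j, v j • x j σ) g h -
          (C *ᵥ v) i * algebraMap ℤ_[2] A (z₀ g h) := by
      funext g h
      rw [hlin, Finset.mul_sum]
      have h4 : (C *ᵥ v) i = ∑ j, C i j * v j := rfl
      rw [h4, Finset.sum_mul, ← Finset.sum_sub_distrib]
      exact Finset.sum_congr rfl fun j _ => by ring
    rw [e1] at h3
    constructor
    · rintro ⟨m, hm, h5⟩
      have h6 := BA.add (BA.mul h3 (-m)) (BA.mul h5 (2 ^ M))
      have e2 : ((fun g h => -m * (2 ^ M * cpr J ρ cj (x i) (fun σ => ∑ j, v j • x j σ) g h -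
          (C *ᵥ v) i * algebraMap ℤ_[2] A (z₀ g h))) + fun g h => 2 ^ M *
          (m * cpr J ρ cj (x i) (fun σ => ∑ j, v j • x j σ) g h)) =
          fun g h => (m * (C *ᵥ v) i) * algebraMap ℤ_[2] A (z₀ g h) := by
        funext g h
        simp only [Pi.add_apply]
        ring
      rw [e2] at h6
      exact (mul_eq_zero.1 (hN _ h6)).resolve_left hm
    · intro h5
      refine ⟨2 ^ M, pow_ne_zero _ h2, ?_⟩
      rw [h5] at h3
      simpa using h3

end main

end Pool.Agent.H76.PS
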