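import Pool.Agent.H76.PS.Defs3

/-!
# The assembly: bounded continuous cochains and the injectivity of the localization
-/

set_option autoImplicit false
set_option linter.unusedSectionVars false

namespace Pool.Agent.H76.PS

open Pool.Agent.Y715.Gi (QB KK GK)
open Pool.Agent.Z384
open Matrix IsLocalRing

section bc

variable (A : Type) [CommRing A] [IsDomain A] [TopologicalSpace A] [IsTopologicalRing A]
  {F : Type} [Field F] [Algebra A F] [IsFractionRing A F]

/-- a nonzero multiple is continuous with values in `A` -/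
def BC {G : Type} [TopologicalSpace G] (f : G → F) : Prop :=
  ∃ (a : A) (b : G → A), algebraMap A F a ≠ 0 ∧ Continuous b ∧
    ∀ g, algebraMap A F a * f g = algebraMap A F (b g)

/-- a nonzero multiple is continuous with values in `A ^ n` -/
def BV {G : Type} [TopologicalSpace G] {n : ℕ} (f : G → Fin n → F) : Prop :=
  ∃ (a : A) (b : G → Fin n → A), algebraMap A F a ≠ 0 ∧ Continuous b ∧
    ∀ g i, algebraMap A F a * f g i = algebraMap A F (b g i)

variable {A}

lemma scal {ι : Type} [Finite ι] (x : ι → F) : ∃ q : A, algebraMap A F q ≠ 0 ∧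
    ∃ y : ι → A, ∀ i, algebraMap A F (y i) = algebraMap A F q * x i := by
  classical
  have := Fintype.ofFinite ι
  have hinj := IsFractionRing.injective A F
  obtain ⟨⟨q, hq⟩, hqv⟩ := IsLocalization.exist_integer_multiples_of_finset (nonZeroDivisors A)
    (Finset.univ.image x)
  have hq0 : algebraMap A F q ≠ 0 := (map_ne_zero_iff _ hinj).2 (nonZeroDivisors.ne_zero hq)
  have hw : ∀ i, ∃ w : A, algebraMap A F w = algebraMap A F q * x i := by
    intro i
    obtain ⟨w, hw⟩ := hqv (x i) (Finset.mem_image_of_mem _ (Finset.mem_univ i))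
    exact ⟨w, by rw [hw, Algebra.smul_def]⟩
  choose w hw using hw
  exact ⟨q, hq0, w, hw⟩

lemma BC.add {G : Type} [TopologicalSpace G] {f g : G → F} (hf : BC A f) (hg : BC A g) :
    BC A (fun x => f x + g x) := by
  obtain ⟨a, b, ha, hb, h⟩ := hf
  obtain ⟨a', b', ha', hb', h'⟩ := hg
  refine ⟨a * a', fun x => a' * b x + a * b' x, by rw [map_mul]; exact mul_ne_zero ha ha',
    (continuous_const.mul hb).add (continuous_const.mul hb'), fun x => ?_⟩
  rw [map_add, map_mul, map_mul, map_mul, ← h, ← h']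
  ring

lemma BC.smul {G : Type} [TopologicalSpace G] {f : G → F} (hf : BC A f) (c : F) :
    BC A (fun x => c * f x) := by
  obtain ⟨a, b, ha, hb, h⟩ := hf
  obtain ⟨q, hq, y, hy⟩ := scal (A := A) (fun _ : Unit => c)
  refine ⟨q * a, fun x => y () * b x, by rw [map_mul]; exact mul_ne_zero hq ha,
    continuous_const.mul hb, fun x => ?_⟩
  rw [map_mul, map_mul, hy, ← h]
  ring

lemma BV.add {G : Type} [TopologicalSpace G] {n : ℕ} {f g : G → Fin n → F} (hf : BV A f)
    (hg : BV A g) : BV A (fun x => f x + g x) := by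
  obtain ⟨a, b, ha, hb, h⟩ := hf
  obtain ⟨a', b', ha', hb', h'⟩ := hg
  refine ⟨a * a', fun x i => a' * b x i + a * b' x i, by rw [map_mul]; exact mul_ne_zero ha ha',
    continuous_pi fun i => (continuous_const.mul ((continuous_apply i).comp hb)).add
      (continuous_const.mul ((continuous_apply i).comp hb')), fun x i => ?_⟩
  rw [map_add, map_mul, map_mul, map_mul, ← h, ← h']
  beta_reduce
  rw [Pi.add_apply]
  ring

lemma BV.smul {G : Type} [TopologicalSpace G] {n : ℕ} {f : G → Fin n → F} (hf : BV A f) (c : F) :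
    BV A (fun x => c • f x) := by
  obtain ⟨a, b, ha, hb, h⟩ := hf
  obtain ⟨q, hq, y, hy⟩ := scal (A := A) (fun _ : Unit => c)
  refine ⟨q * a, fun x i => y () * b x i, by rw [map_mul]; exact mul_ne_zero hq ha,
    continuous_pi fun i => continuous_const.mul ((continuous_apply i).comp hb), fun x i => ?_⟩
  rw [map_mul, map_mul, hy, ← h]
  beta_reduce
  rw [Pi.smul_apply, smul_eq_mul]
  ring

lemma BV.zero {G : Type} [TopologicalSpace G] {n : ℕ} : BV A (fun _ : G => (0 : Fin n → F)) :=
  ⟨1, fun _ => 0, by simp, continuous_const, fun g i => by simp⟩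

lemma BV.sum {G : Type} [TopologicalSpace G] {n : ℕ} {ι : Type} (t : Finset ι)
    (f : ι → G → Fin n → F) (hf : ∀ i, BV A (f i)) (u : ι → F) :
    BV A (fun x => ∑ i ∈ t, u i • f i x) := by
  classical
  induction t using Finset.induction_on with
  | empty => simpa using BV.zero
  | insert a t ha ih =>
    have := ((hf a).smul (u a)).add ih
    simpa only [Finset.sum_insert ha] using this

lemma BV.const {G : Type} [TopologicalSpace G] {n : ℕ} (v : Fin n → F) :
    BV A (fun _ : G => v) := by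
  obtain ⟨q, hq, y, hy⟩ := scal (A := A) v
  exact ⟨q, fun _ => y, hq, continuous_const, fun g i => (hy i).symm⟩

end bc

section em

variable {A : Type} [CommRing A] {F : Type} [Field F] [Algebra A F] {n : ℕ}

variable (F) in
/-- the embedding -/
def em (v : Fin n → A) : Fin n → F := fun i => algebraMap A F (v i)

end em

section glob

variable {s : QB} {A : Type} [CommRing A] [IsDomain A] [IsLocalRing A] [IsNoetherianRing A]
  [TopologicalSpace A] [IsTopologicalRing A]
  {F : Type} [Field F] [Algebra A F] [IsFractionRing A F] {n : ℕ}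

lemma em_inj {x y : Fin n → A} (h : em F x = em F y) : x = y :=
  funext fun i => IsFractionRing.injective A F (congrFun h i)

lemma act_em {G : Type} [Group G] (ρ : G →* GL (Fin n) A) (g : G) (v : Fin n → A) :
    act F ρ g (em F v) = em F ((ρ g : Matrix (Fin n) (Fin n) A) *ᵥ v) := act_emb ρ g v

/-- global cocycles unramified outside two -/
structure GC (ρ : GK s →* GL (Fin n) A) (z : GK s → Fin n → F) : Prop where
  mul : ∀ σ τ, z (σ * τ) = z σ + act F ρ σ (z τ)
  cont : BV A z
  unr : ∀ (p : ℕ) [Fact p.Prime] (ι : QB →ₐ[ℚ] PadicAlgCl p), p ≠ 2 →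
    ∀ σ ∈ (II ι : Set (GK s)), z σ = 0

/-- local cocycles -/
structure LC (ρ : GK s →* GL (Fin n) A) (ι₀ : QB →ₐ[ℚ] PadicAlgCl 2)
    (l : DDs (s := s) ι₀ → Fin n → F) : Prop where
  mul : ∀ δ δ', l (δ * δ') = l δ + act F ρ (δ : GK s) (l δ')
  cont : BV A l

lemma GC.sum {ρ : GK s →* GL (Fin n) A} {k : ℕ} {x : Fin k → GK s → Fin n → F}
    (hx : ∀ j, GC ρ (x j)) (u : Fin k → F) : GC ρ (fun σ => ∑ j, u j • x j σ) where
  mul σ τ := by
    rw [map_sum, ← Finset.sum_add_distrib]
    refine Finset.sum_congr rfl fun i _ => ?_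
    rw [map_smul, ← smul_add, (hx i).mul]
  cont := BV.sum _ _ (fun i => (hx i).cont) u
  unr p _ ι hp σ hσ := Finset.sum_eq_zero fun i _ => by rw [(hx i).unr p ι hp σ hσ, smul_zero]

lemma GC.sub {ρ : GK s →* GL (Fin n) A} {y z : GK s → Fin n → F} (hy : GC ρ y) (hz : GC ρ z) :
    GC ρ (fun σ => y σ - z σ) where
  mul σ τ := by
    rw [hy.mul, hz.mul, map_sub]
    abel
  cont := by
    have := hy.cont.add (hz.cont.smul (-1))
    simpa only [neg_smul, one_smul, ← sub_eq_add_neg] using this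
  unr p _ ι hp σ hσ := by rw [hy.unr p ι hp σ hσ, hz.unr p ι hp σ hσ, sub_zero]

/-- the localization is injective on the classes unramified outside two -/
theorem inj_glob (hE0 : StE0) {d : ℕ} (hs : s ^ 2 = -(d : QB)) (hF : Fld d)
    (hA : IsAdic (maximalIdeal A)) (hfin : Finite (ResidueField A)) (h2 : (2 : A) ∈ maximalIdeal A)
    {ρ : GK s →* GL (Fin n) A} (hρ : Rp ρ) (ι₀ : QB →ₐ[ℚ] PadicAlgCl 2)
    {c : GK s → Fin n → F} (hc : GC ρ c) {v : Fin n → F}
    (hv : ∀ δ ∈ DDs (s := s) ι₀, c δ = act F ρ δ v - v) (σ : GK s) : c σ = act F ρ σ v - v := by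
  classical
  have hinj := IsFractionRing.injective A F
  obtain ⟨a, b, ha, hb, hab⟩ := hc.cont
  obtain ⟨q, hq0, w, hw⟩ := scal (A := A) v
  set b' : GK s → Fin n → A := fun σ i => q * b σ i with hb'
  set w' : Fin n → A := fun i => a * w i with hw'
  have hb1 : ∀ σ, em F (b' σ) = (algebraMap A F (a * q)) • c σ := by
    intro σ
    funext i
    show algebraMap A F (q * b σ i) = _
    rw [Pi.smul_apply, smul_eq_mul, map_mul, map_mul, ← hab]
    ring
  have hw1 : em F w' = (algebraMap A F (a * q)) • v := by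
    funext i
    show algebraMap A F (a * w i) = _
    rw [Pi.smul_apply, smul_eq_mul, map_mul, map_mul, hw]
    ring
  have hemadd : ∀ x y : Fin n → A, em F (x + y) = em F x + em F y := fun x y => by
    funext i
    exact map_add _ _ _
  have hemsub : ∀ x y : Fin n → A, em F (x - y) = em F x - em F y := fun x y => by
    funext i
    exact map_sub _ _ _
  have hcoc : ∀ σ τ, b' (σ * τ) = b' σ + ((ρ σ : Matrix (Fin n) (Fin n) A) *ᵥ b' τ) := by
    intro σ τ
    apply em_inj (F := F)
    rw [hemadd, ← act_em, hb1, hb1, hb1, hc.mul, smul_add, map_smul]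
  have hbc : Continuous b' := continuous_pi fun i => continuous_const.mul ((continuous_apply i).comp hb)
  have hur : ∀ (p : ℕ) [Fact p.Prime] (ι : QB →ₐ[ℚ] PadicAlgCl p), p ≠ 2 →
      ∀ σ ∈ (II ι : Set (GK s)), b' σ = 0 := by
    intro p _ ι' hp σ hσ
    apply em_inj (F := F)
    rw [hb1, hc.unr p ι' hp σ hσ, smul_zero]
    funext i
    exact (map_zero _).symm
  have hE : Rp (ext ρ b' hcoc) := rp_ext hρ hbc hcoc hur
  have hden : ∀ m : ℕ, ∃ δ ∈ DDs (s := s) ι₀, δ⁻¹ * σ ∈ cong (ext ρ b' hcoc) m := fun m => by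
    have hte := te_cong hA hfin h2 hE m
    exact (hE0 s d hs hF).2.2.2.2 ι₀ _ hte.isOpen (sInf_le hte) σ
  have hD : ∀ δ ∈ DDs (s := s) ι₀,
      b' δ = ((ρ δ : Matrix (Fin n) (Fin n) A) *ᵥ w') - w' := by
    intro δ hδ
    apply em_inj (F := F)
    rw [hemsub, ← act_em, hb1, hw1, hv δ hδ, map_smul, smul_sub]
  have hfinal : b' σ - (((ρ σ : Matrix (Fin n) (Fin n) A) *ᵥ w') - w') ∈ (⊥ : Submodule A (Fin n → A)) := by
    refine krull ⊥ fun m => ⟨0, zero_mem _, fun i => ?_⟩
    obtain ⟨δ, hδ, hcg⟩ := hden m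
    obtain ⟨k1, k2⟩ := ext_mem ρ b' hcoc (δ⁻¹ * σ) (mem_cong.1 hcg)
    set h : GK s := δ⁻¹ * σ with hh
    have hσ : σ = δ * h := by rw [hh]; group
    have e1 : b' σ - (((ρ σ : Matrix (Fin n) (Fin n) A) *ᵥ w') - w') =
        (ρ δ : Matrix (Fin n) (Fin n) A) *ᵥ
          (b' h - (((ρ h : Matrix (Fin n) (Fin n) A) - 1) *ᵥ w')) := by
      rw [hσ, hcoc, hD δ hδ, map_mul, Units.val_mul, Matrix.mulVec_sub, Matrix.sub_mulVec,
        Matrix.one_mulVec, Matrix.mulVec_sub, Matrix.mulVec_mulVec]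
      abel
    rw [e1, Pi.zero_apply, sub_zero]
    have e2 : ∀ j, (b' h - (((ρ h : Matrix (Fin n) (Fin n) A) - 1) *ᵥ w') : Fin n → A) j ∈
        maximalIdeal A ^ m := by
      intro j
      rw [Pi.sub_apply]
      refine sub_mem (k2 j) ?_
      rw [Matrix.mulVec, dotProduct]
      exact Ideal.sum_mem _ fun l _ => Ideal.mul_mem_right _ _ (k1 j l)
    rw [Matrix.mulVec, dotProduct]
    exact Ideal.sum_mem _ fun l _ => Ideal.mul_mem_left _ _ (e2 l)
  rw [Submodule.mem_bot, sub_eq_zero] at hfinal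
  have hne : algebraMap A F (a * q) ≠ 0 := by
    rw [map_mul]
    exact mul_ne_zero ha hq0
  have h3 : (algebraMap A F (a * q)) • c σ = (algebraMap A F (a * q)) • (act F ρ σ v - v) := by
    rw [← hb1, hfinal, smul_sub, ← map_smul, ← hw1, act_em, hemsub]
  exact smul_right_injective _ hne h3

end glob

end Pool.Agent.H76.PS
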