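import Pool.Agent.H76.PS.I5

/-!
# The parity of the Selmer group
-/

set_option autoImplicit false
set_option linter.unusedSectionVars false

namespace Pool.Agent.H76.PS

open Pool.Agent.Y715.Gi (QB KK GK)
open Pool.Agent.Z384
open Matrix IsLocalRing

section orth

variable {s : QB} {A : Type} [CommRing A] [IsDomain A] [IsLocalRing A] [IsNoetherianRing A]
  [TopologicalSpace A] [IsTopologicalRing A] [Algebra ℤ_[2] A]
  {F : Type} [Field F] [Algebra A F] [IsFractionRing A F] {n : ℕ}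

variable (A F) in
/-- the value of the character in `F` -/
noncomputable def chF (χ : GK s → ℤ_[2]) (σ : GK s) : F := algebraMap A F (algebraMap ℤ_[2] A (χ σ))

/-- the cup product of `l` and of the conjugate of `z` is trivial on the decomposition group -/
def Orth (J : Matrix (Fin n) (Fin n) F) (ρ : GK s →* GL (Fin n) A) (χ : GK s → ℤ_[2])
    (cj : GK s → GK s) (ι₀ : QB →ₐ[ℚ] PadicAlgCl 2) (l : DDs (s := s) ι₀ → Fin n → F)
    (z : GK s → Fin n → F) : Prop :=
  ∃ f : DDs (s := s) ι₀ → F, BC A f ∧ ∀ δ δ' : DDs (s := s) ι₀,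
    l δ ⬝ᵥ (J *ᵥ act F ρ (cj δ) (z (cj δ'))) = f δ + chF A F χ δ * f δ' - f (δ * δ')

variable {J : Matrix (Fin n) (Fin n) F} {ρ : GK s →* GL (Fin n) A} {χ : GK s → ℤ_[2]}
    {cj : GK s → GK s} {ι₀ : QB →ₐ[ℚ] PadicAlgCl 2} {l : DDs (s := s) ι₀ → Fin n → F}

lemma Orth.add {z z' : GK s → Fin n → F} (h : Orth J ρ χ cj ι₀ l z) (h' : Orth J ρ χ cj ι₀ l z') :
    Orth J ρ χ cj ι₀ l (fun σ => z σ + z' σ) := by
  obtain ⟨f, hf, h1⟩ := h
  obtain ⟨g, hg, h2⟩ := h'
  refine ⟨fun x => f x + g x, hf.add hg, fun δ δ' => ?_⟩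
  rw [map_add, Matrix.mulVec_add, dotProduct_add, h1, h2]
  ring

lemma Orth.smul {z : GK s → Fin n → F} (h : Orth J ρ χ cj ι₀ l z) (a : F) :
    Orth J ρ χ cj ι₀ l (fun σ => a • z σ) := by
  obtain ⟨f, hf, h1⟩ := h
  refine ⟨fun x => a * f x, hf.smul a, fun δ δ' => ?_⟩
  rw [map_smul, Matrix.mulVec_smul, dotProduct_smul, h1, smul_eq_mul]
  ring

lemma orth_smul_iff {z : GK s → Fin n → F} {a : F} (ha : a ≠ 0) :
    Orth J ρ χ cj ι₀ l (fun σ => a • z σ) ↔ Orth J ρ χ cj ι₀ l z := by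
  refine ⟨fun h => ?_, fun h => h.smul a⟩
  have h1 := h.smul a⁻¹
  have h2 : (fun σ => a⁻¹ • a • z σ) = z := by
    funext σ
    rw [inv_smul_smul₀ ha]
  rwa [h2] at h1

lemma pair_em {J' : Matrix (Fin n) (Fin n) A} {q : A}
    (hJ' : ∀ i j, algebraMap A F (J' i j) = algebraMap A F q * J i j) (u w : Fin n → A) :
    algebraMap A F (u ⬝ᵥ (J' *ᵥ w)) = algebraMap A F q * (em F u ⬝ᵥ (J *ᵥ em F w)) := by
  simp only [dotProduct, mulVec, map_sum, map_mul, em, hJ', Finset.mul_sum]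
  refine Finset.sum_congr rfl fun i _ => Finset.sum_congr rfl fun j _ => ?_
  ring

lemma dot_trF (R : Matrix (Fin n) (Fin n) F) (u w : Fin n → F) :
    (R *ᵥ u) ⬝ᵥ w = u ⬝ᵥ (Rᵀ *ᵥ w) := by
  rw [Matrix.dotProduct_mulVec, Matrix.vecMul_transpose]

lemma pairF (hJ : ∀ σ, ((ρ σ : Matrix (Fin n) (Fin n) A).map (algebraMap A F))ᵀ * J *
      ((ρ (cj σ) : Matrix (Fin n) (Fin n) A).map (algebraMap A F)) = chF A F χ σ • J)
    (σ : GK s) (u w : Fin n → F) :
    (act F ρ σ u) ⬝ᵥ (J *ᵥ act F ρ (cj σ) w) = chF A F χ σ * (u ⬝ᵥ (J *ᵥ w)) := by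
  rw [act_apply, act_apply, dot_trF, Matrix.mulVec_mulVec, Matrix.mulVec_mulVec, hJ,
    Matrix.smul_mulVec, dotProduct_smul, smul_eq_mul]

lemma Orth.cob (hJ : ∀ σ, ((ρ σ : Matrix (Fin n) (Fin n) A).map (algebraMap A F))ᵀ * J *
      ((ρ (cj σ) : Matrix (Fin n) (Fin n) A).map (algebraMap A F)) = chF A F χ σ • J)
    (hρc : ∀ i j, Continuous fun σ => (ρ σ : Matrix (Fin n) (Fin n) A) i j)
    (hcc : Continuous cj) (hcm : ∀ σ τ, cj (σ * τ) = cj σ * cj τ) (hl : LC ρ ι₀ l) (v : Fin n → F) :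
    Orth J ρ χ cj ι₀ l (fun σ => act F ρ σ v - v) := by
  refine ⟨fun δ => -(l δ ⬝ᵥ (J *ᵥ act F ρ (cj δ) v)), ?_, fun δ δ' => ?_⟩
  · obtain ⟨a, b, ha, hb, hab⟩ := hl.cont
    obtain ⟨q, hq, J', hJ'⟩ := scal (A := A) (fun i : Fin n × Fin n => J i.1 i.2)
    obtain ⟨q', hq', v', hv'⟩ := scal (A := A) v
    refine ⟨a * q * q', fun δ => -(b δ ⬝ᵥ ((Matrix.of fun i j => J' (i, j)) *ᵥ
      ((ρ (cj δ) : Matrix (Fin n) (Fin n) A) *ᵥ v'))), ?_, ?_, fun δ => ?_⟩
    · rw [map_mul, map_mul]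
      exact mul_ne_zero (mul_ne_zero ha hq) hq'
    · have h3 : Continuous fun v : DDs (s := s) ι₀ => (ρ (cj v) : Matrix (Fin n) (Fin n) A) :=
        continuous_matrix fun a c => (hρc a c).comp (hcc.comp continuous_subtype_val)
      exact (hb.dotProduct (continuous_const.matrix_mulVec
        (h3.matrix_mulVec continuous_const))).neg
    · rw [map_neg, pair_em (J := J) (q := q) (fun i j => by
        rw [Matrix.of_apply]
        exact hJ' (i, j)), ← act_em]
      have e1 : em F (b δ) = algebraMap A F a • l δ := by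
        funext i
        exact (hab δ i).symm
      have e2 : em F v' = algebraMap A F q' • v := by
        funext i
        exact hv' i
      rw [e1, e2, map_smul, Matrix.mulVec_smul, dotProduct_smul, smul_dotProduct, map_mul, map_mul,
        smul_eq_mul, smul_eq_mul]
      ring
  · have e1 : act F ρ (cj ((δ * δ' : DDs (s := s) ι₀) : GK s)) v =
        act F ρ (cj δ) (act F ρ (cj δ') v) := by
      rw [Subgroup.coe_mul, hcm, act_mul]
    beta_reduce
    rw [hl.mul, e1, map_sub, Matrix.mulVec_sub, dotProduct_sub, add_dotProduct, pairF hJ]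
    ring

/-- the cup products are invariant cocycles -/
lemma za_cpr {J' : Matrix (Fin n) (Fin n) A} (hA : IsAdic (maximalIdeal A))
    (hfin : Finite (ResidueField A)) (h2 : (2 : A) ∈ maximalIdeal A) (hρ : Rp ρ)
    (hJρ : ∀ σ, (ρ σ : Matrix (Fin n) (Fin n) A)ᵀ * J' * (ρ (cj σ) : Matrix _ _ A) = χ σ • J')
    (hcc : Continuous cj) (hcm : ∀ σ τ, cj (σ * τ) = cj σ * cj τ) (hcn : ∀ σ ∈ Nf s, cj σ ∈ Nf s)
    {x y : GK s → Fin n → A} (hxc : Continuous x) (hyc : Continuous y)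
    (hx : ∀ σ τ, x (σ * τ) = x σ + (ρ σ : Matrix (Fin n) (Fin n) A) *ᵥ x τ)
    (hy : ∀ σ τ, y (σ * τ) = y σ + (ρ σ : Matrix (Fin n) (Fin n) A) *ᵥ y τ)
    (hxn : ∀ σ ∈ Nf s, x σ = 0) (hyn : ∀ σ ∈ Nf s, y σ = 0) (m : A) :
    ZA χ (fun g h => m * cpr J' ρ cj x y g h) := by
  refine ⟨?_, fun σ τ n hn => ?_, fun σ τ n hn => ?_, fun g h k => ?_⟩
  · have h3 : Continuous fun v : GK s × GK s => (ρ (cj v.1) : Matrix (Fin n) (Fin n) A) :=
      continuous_matrix fun a c => (hρ.cont a c).comp (hcc.comp continuous_fst)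
    have h4 : Continuous fun v : GK s × GK s => y (cj v.2) := hyc.comp (hcc.comp continuous_snd)
    have h5 : Continuous fun v : GK s × GK s => x v.1 := hxc.comp continuous_fst
    exact continuous_const.mul (h5.dotProduct (continuous_const.matrix_mulVec (h3.matrix_mulVec h4)))
  · unfold cpr
    rw [hx, hxn n hn, Matrix.mulVec_zero, add_zero, hcm, map_mul, rp_Nf hA hfin h2 hρ (hcn n hn),
      mul_one]
  · unfold cpr
    rw [hcm, hy, hyn _ (hcn n hn), Matrix.mulVec_zero, add_zero]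
  · have h3 := congrArg (fun t => m * t) (cpr_coc hJρ hcm hx hy g h k)
    simp only [mul_zero, mul_sub, mul_add, mul_smul_comm] at h3
    exact h3

/-- local and global triviality -/
lemma orth_int (hLG : StLG) {d : ℕ} (hs : s ^ 2 = -(d : QB)) (hF : Fld d) {r : ℕ}
    (b : Module.Basis (Fin r) ℤ_[2] A) (hb : ∀ e, Continuous fun a : A => b.repr a e)
    (hsm : Continuous fun t : ℤ_[2] => algebraMap ℤ_[2] A t) (hχ : IsCyc χ)
    {J' : Matrix (Fin n) (Fin n) A} {q : A} (hq : algebraMap A F q ≠ 0)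
    (hJ' : ∀ i j, algebraMap A F (J' i j) = algebraMap A F q * J i j)
    {x z : GK s → Fin n → A} (hz : ∀ m : A, ZA χ (fun g h => m * cpr J' ρ cj x z g h))
    (hx1 : x 1 = 0) {a : A} (ha : algebraMap A F a ≠ 0)
    (hl : ∀ δ : DDs (s := s) ι₀, em F (x δ) = algebraMap A F a • l δ) :
    Orth J ρ χ cj ι₀ l (fun σ => em F (z σ)) ↔
      ∃ m : A, m ≠ 0 ∧ (fun g h => m * cpr J' ρ cj x z g h) ∈ BA A χ := by
  have hinj := IsFractionRing.injective A F
  have key : ∀ δ δ' : DDs (s := s) ι₀, algebraMap A F (cpr J' ρ cj x z δ δ') =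
      algebraMap A F (a * q) * (l δ ⬝ᵥ (J *ᵥ act F ρ (cj δ) (em F (z (cj δ'))))) := by
    intro δ δ'
    unfold cpr
    rw [pair_em hJ', hl, ← act_em, smul_dotProduct, map_mul, smul_eq_mul]
    ring
  have haq : algebraMap A F (a * q) ≠ 0 := by
    rw [map_mul]
    exact mul_ne_zero ha hq
  constructor
  · rintro ⟨f, ⟨m, f', hm, hf', hmf⟩, hf⟩
    have hm0 : m ≠ 0 := fun h => hm (by rw [h, map_zero])
    refine ⟨m, hm0, hLG s d hs hF ι₀ A r b hb hsm χ hχ _ (hz m) ?_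
      ⟨fun δ => (a * q) * f' δ, continuous_const.mul hf', fun δ δ' => hinj ?_⟩⟩
    · unfold cpr
      rw [hx1, zero_dotProduct, mul_zero]
    · rw [map_mul, key, hf, Algebra.smul_def]
      simp only [map_sub, map_add]
      rw [map_mul (algebraMap A F) (a * q) (f' δ), map_mul (algebraMap A F) (a * q) (f' (δ * δ')),
        map_mul (algebraMap A F) (algebraMap ℤ_[2] A (χ δ)),
        map_mul (algebraMap A F) (a * q) (f' δ'), ← hmf, ← hmf, ← hmf]
      unfold chF
      ring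
  · rintro ⟨m, hm, f, hf, hfz⟩
    have hm' : algebraMap A F m ≠ 0 := (map_ne_zero_iff _ hinj).2 hm
    have hne : algebraMap A F (m * (a * q)) ≠ 0 := by
      rw [map_mul]
      exact mul_ne_zero hm' haq
    refine ⟨fun δ => (algebraMap A F (m * (a * q)))⁻¹ * algebraMap A F (f δ),
      ⟨m * (a * q), fun δ => f δ, hne, hf.comp continuous_subtype_val, fun δ => ?_⟩, fun δ δ' => ?_⟩
    · rw [mul_inv_cancel_left₀ hne]
    · have h1 := congrArg (algebraMap A F) (hfz δ δ')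
      beta_reduce at h1
      rw [map_mul, key, Algebra.smul_def] at h1
      simp only [map_sub, map_add] at h1
      rw [map_mul (algebraMap A F) (algebraMap ℤ_[2] A (χ δ))] at h1
      apply mul_left_cancel₀ hne
      have e3 : ∀ t : F, algebraMap A F (m * (a * q)) * ((algebraMap A F (m * (a * q)))⁻¹ * t) = t :=
        fun t => mul_inv_cancel_left₀ hne t
      have e4 : algebraMap A F (m * (a * q)) * (chF A F χ δ *
          ((algebraMap A F (m * (a * q)))⁻¹ * algebraMap A F (f δ'))) =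
          chF A F χ δ * algebraMap A F (f δ') := by
        rw [mul_left_comm, e3]
      rw [mul_sub, mul_add, e3, e4, e3, map_mul, mul_assoc, h1]
      rfl

end orth

end Pool.Agent.H76.PS
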