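import Pool.Agent.H76.PS.I7
import Pool.Agent.K7.H64.PS.A1
import Pool.Agent.K7.H29.PS.A2
import Pool.Agent.K7.H67.PS.A3
import Pool.Agent.K7.H65.PS.A4
import Pool.Agent.K7.H57.PS.B1
import Pool.Agent.K7.H57.PS.B2
import Pool.Agent.K7.H5.PS.D1
import Pool.Agent.K7.H15.PS.D2
import Pool.Agent.K7.H35.PS.C1
import Pool.Agent.K7.H81.PS.C2
import Pool.Agent.K7.H34.PS.D3
import Pool.Agent.K7.H34.PS.E0
import Pool.Agent.K7.H15.PS.E1
import Pool.Agent.K7.H22.PS.F1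
import Pool.Agent.K7.H60.PS.F2
import Pool.Agent.K7.H79.PS.G1
import Pool.Agent.K7.H79.PS.G2
import Pool.Agent.K7.H29.PS.HZ
import Pool.Agent.K7.H91.PS.LG
import Pool.Agent.K7.H35.PS.Top
import Pool.Agent.K7.H82.PS.E2

/-!
# The parity of the Selmer group: all jobs put together
-/

set_option autoImplicit false
set_option linter.unusedSectionVars false

namespace Pool.Agent.H76.PS

open Pool.Agent.Y715.Gi (QB KK GK)
open Pool.Agent.Z384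
open Matrix IsLocalRing
open Pool.Agent.K7

theorem stA : StA := H65.PS.stA4 H64.PS.stA1 H29.PS.stA2 H67.PS.stA3

theorem stB : StB := H57.PS.b2 H57.PS.b1

theorem stC : StC := H81.PS.stC2 H35.PS.stC1

theorem stD : StD := H15.PS.stD2 H5.PS.stD1

/-- **Parity of the Selmer group.** -/
theorem parity' {s : QB} {d : ℕ} (hs : s ^ 2 = -(d : QB)) (hF : Fld d) {χ : GK s → ℤ_[2]} (hχ : IsCyc χ)
    {c : QB ≃ₐ[ℚ] QB} (hc : IsConj c) {cj : GK s → GK s} (hcj : ∀ σ x, cj σ x = c (σ (c x)))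
    {A : Type} [CommRing A] [IsDomain A] [IsLocalRing A] [IsNoetherianRing A]
    [TopologicalSpace A] [IsTopologicalRing A] [Algebra ℤ_[2] A] [Module.Finite ℤ_[2] A]
    [Module.Free ℤ_[2] A] (hA : IsAdic (maximalIdeal A))
    {F : Type} [Field F] [Algebra A F] [IsFractionRing A F] {n : ℕ}
    {ρ : GK s →* GL (Fin n) A} (hρ : Rp ρ) {J : Matrix (Fin n) (Fin n) F} (hJs : J.IsSymm)
    (hJ : ∀ σ, ((ρ σ : Matrix (Fin n) (Fin n) A).map (algebraMap A F))ᵀ * J *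
      ((ρ (cj σ) : Matrix (Fin n) (Fin n) A).map (algebraMap A F)) = chF A F χ σ • J)
    (ι₀ : QB →ₐ[ℚ] PadicAlgCl 2) {k : ℕ} (l : Fin k → DDs (s := s) ι₀ → Fin n → F)
    (hl : ∀ i, LC ρ ι₀ (l i))
    (hind : ∀ a : Fin k → F, (∃ v : Fin n → F, ∀ δ : DDs (s := s) ι₀,
      ∑ i, a i • l i δ = act F ρ (δ : GK s) v - v) → a = 0) :
    ∃ r ≤ k, Even (k - r) ∧ ∃ z : Fin r → GK s → Fin n → F, (∀ t, Sel J ρ χ cj ι₀ l (z t)) ∧
      (∀ a : Fin r → F, (∃ v : Fin n → F, ∀ σ, ∑ t, a t • z t σ = act F ρ σ v - v) → a = 0) ∧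
      ∀ y, Sel J ρ χ cj ι₀ l y → ∃ (a : Fin r → F) (v : Fin n → F),
        ∀ σ, y σ = ∑ t, a t • z t σ + (act F ρ σ v - v) := by
  have hE : StE := H82.PS.stE2 stC stD H34.PS.stD3 H34.PS.stE0 H15.PS.stE1
  have hG1 : StG1 := H79.PS.stG1 H34.PS.stD3
  have hG2 : StG2 := H79.PS.stG2 hE H34.PS.stE0 H34.PS.stD3
  have hH : StH := H29.PS.stH hE H34.PS.stE0 H34.PS.stD3 hG1
  have hF1 : StF1 := H22.PS.stF1 hE H34.PS.stE0
  have hF2 : StF2 := H60.PS.stF2 H34.PS.stE0 hF1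
  have hLG : StLG := H91.PS.stLG hE H34.PS.stE0 H15.PS.stE1 hG1
  exact parity stA stB hE H34.PS.stE0 hG1 hG2 hH hF2 hLG H35.PS.stTop H91.PS.stEv hs hF hχ hc hcj
    hA hρ hJs hJ ι₀ l hl hind

end Pool.Agent.H76.PS
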